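import Pool.Agent.Lib.MP_a9db68_al.Defs

/-! Wedge and contraction operators on the full simplex. -/

set_option autoImplicit false

namespace Pool.Agent.Lib.MP_a9db68_al

variable {K : Type*} [Field K] {n : ℕ}

/-- the sign of `v` relative to `τ` -/
def sg (K : Type*) [Field K] {n : ℕ} (v : Fin n) (τ : Finset (Fin n)) : K :=
  (-1) ^ (τ.filter (· < v)).card

theorem sg_mul_self (v : Fin n) (τ : Finset (Fin n)) : sg K v τ * sg K v τ = 1 := by
  unfold sg
  rw [← mul_pow]
  simp

theorem sg_insert_self (v : Fin n) (τ : Finset (Fin n)) : sg K v (insert v τ) = sg K v τ := by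
  unfold sg
  congr 2
  ext w
  simp only [Finset.mem_filter, Finset.mem_insert]
  constructor
  · rintro ⟨rfl | h, h2⟩
    · exact absurd h2 (lt_irrefl _)
    · exact ⟨h, h2⟩
  · rintro ⟨h, h2⟩
    exact ⟨Or.inr h, h2⟩

theorem sg_insert {v w : Fin n} {τ : Finset (Fin n)} (hv : v ∉ τ) :
    sg K w (insert v τ) = (if v < w then -1 else 1) * sg K w τ := by
  unfold sg
  rw [Finset.filter_insert]
  split_ifs with h
  · rw [Finset.card_insert_of_notMem (fun h' => hv (Finset.mem_filter.1 h').1), pow_succ]
    ring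
  · rw [one_mul]

theorem sg_swap {v w : Fin n} {τ : Finset (Fin n)} (hv : v ∉ τ) (hw : w ∉ τ) (hvw : v ≠ w) :
    sg K v τ * sg K w (insert v τ) = -(sg K w τ * sg K v (insert w τ)) := by
  rw [sg_insert hv, sg_insert hw]
  rcases lt_or_gt_of_ne hvw with h | h
  · rw [if_pos h, if_neg (not_lt.2 h.le)]
    ring
  · rw [if_pos h, if_neg (not_lt.2 h.le)]
    ring

/-- contraction with the functional `f` -/
def io (f : Fin n → K) (c : Finset (Fin n) → K) (τ : Finset (Fin n)) : K :=
  ∑ v ∈ τᶜ, sg K v τ * (f v * c (insert v τ))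

/-- wedge with `v` -/
def we (v : Fin n) (c : Finset (Fin n) → K) (τ : Finset (Fin n)) : K :=
  if v ∈ τ then sg K v (τ.erase v) * c (τ.erase v) else 0

theorem bd_eq (c : Finset (Fin n) → K) : bd c = io (fun _ => 1) c := by
  funext τ
  unfold bd io sg
  simp only [one_mul]

theorem io_add (f : Fin n → K) (c d : Finset (Fin n) → K) : io f (c + d) = io f c + io f d := by
  funext τ
  simp only [io, Pi.add_apply, mul_add, Finset.sum_add_distrib]

theorem io_neg (f : Fin n → K) (c : Finset (Fin n) → K) : io f (-c) = -io f c := by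
  funext τ
  simp only [io, Pi.neg_apply, mul_neg, Finset.sum_neg_distrib]

theorem io_sub (f : Fin n → K) (c d : Finset (Fin n) → K) : io f (c - d) = io f c - io f d := by
  rw [sub_eq_add_neg, io_add, io_neg, ← sub_eq_add_neg]

theorem io_zero (f : Fin n → K) : io f (0 : Finset (Fin n) → K) = 0 := by
  funext τ
  simp [io]

theorem io_fadd (f g : Fin n → K) (c : Finset (Fin n) → K) :
    io (fun v => f v + g v) c = io f c + io g c := by
  funext τ
  simp only [io, Pi.add_apply, add_mul, mul_add, Finset.sum_add_distrib]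

theorem we_add (v : Fin n) (c d : Finset (Fin n) → K) : we v (c + d) = we v c + we v d := by
  funext τ
  simp only [we, Pi.add_apply]
  split_ifs
  · ring
  · simp

theorem we_neg (v : Fin n) (c : Finset (Fin n) → K) : we v (-c) = -we v c := by
  funext τ
  simp only [we, Pi.neg_apply]
  split_ifs
  · ring
  · simp

theorem we_zero (v : Fin n) : we v (0 : Finset (Fin n) → K) = 0 := by
  funext τ
  simp [we]

theorem io_io (f g : Fin n → K) (c : Finset (Fin n) → K) (τ : Finset (Fin n)) :
    io f (io g c) τ = ∑ p ∈ (τᶜ ×ˢ τᶜ).filter (fun p => p.1 ≠ p.2),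
      sg K p.1 τ * sg K p.2 (insert p.1 τ) * (f p.1 * g p.2 * c (insert p.2 (insert p.1 τ))) := by
  rw [Finset.sum_filter, Finset.sum_product]
  unfold io
  refine Finset.sum_congr rfl fun v _ => ?_
  rw [← Finset.sum_filter, Finset.mul_sum, Finset.mul_sum]
  refine Finset.sum_congr ?_ fun w _ => by ring
  ext w
  simp only [Finset.mem_compl, Finset.mem_insert, Finset.mem_filter, not_or, ne_eq]
  constructor
  · rintro ⟨h1, h2⟩
    exact ⟨h2, fun h => h1 h.symm⟩
  · rintro ⟨h1, h2⟩
    exact ⟨fun h => h2 h.symm, h1⟩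

theorem io_self (f : Fin n → K) (c : Finset (Fin n) → K) : io f (io f c) = 0 := by
  funext τ
  rw [io_io]
  refine Finset.sum_involution (fun p _ => (p.2, p.1)) ?_ ?_ ?_ ?_
  · rintro ⟨v, w⟩ hp
    simp only [Finset.mem_filter, Finset.mem_product, Finset.mem_compl, ne_eq] at hp
    obtain ⟨⟨hv, hw⟩, hvw⟩ := hp
    simp only
    rw [Finset.insert_comm w v, sg_swap hv hw hvw]
    ring
  · rintro ⟨v, w⟩ hp _ h
    simp only [Finset.mem_filter, ne_eq] at hp
    exact hp.2 (Prod.ext_iff.1 h).2
  · rintro ⟨v, w⟩ hp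
    simp only [Finset.mem_filter, Finset.mem_product, Finset.mem_compl, ne_eq] at hp ⊢
    exact ⟨⟨hp.1.2, hp.1.1⟩, fun h => hp.2 h.symm⟩
  · rintro ⟨v, w⟩ _
    rfl

theorem io_anti (f g : Fin n → K) (c : Finset (Fin n) → K) : io f (io g c) = -io g (io f c) := by
  have h := io_self (fun v => f v + g v) c
  rw [io_fadd f g (io _ c), io_fadd f g c, io_add, io_add, io_self, io_self, zero_add, add_zero]
    at h
  exact eq_neg_of_add_eq_zero_left h

theorem bd_bd (c : Finset (Fin n) → K) : bd (bd c) = 0 := by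
  rw [bd_eq, bd_eq, io_self]

theorem we_io (v : Fin n) (f : Fin n → K) (c : Finset (Fin n) → K) :
    we v (io f c) + io f (we v c) = fun τ => f v * c τ := by
  funext τ
  rw [Pi.add_apply]
  by_cases hv : v ∈ τ
  · obtain ⟨ρ, hρ, rfl⟩ : ∃ ρ, v ∉ ρ ∧ τ = insert v ρ :=
      ⟨τ.erase v, Finset.notMem_erase v τ, (Finset.insert_erase hv).symm⟩
    have h1 : we v (io f c) (insert v ρ) = sg K v ρ * io f c ρ := by
      unfold we
      rw [if_pos hv, Finset.erase_insert hρ]
    have h2 : io f c ρ = sg K v ρ * (f v * c (insert v ρ)) +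
        ∑ w ∈ (insert v ρ)ᶜ, sg K w ρ * (f w * c (insert w ρ)) := by
      unfold io
      have : ρᶜ = insert v (insert v ρ)ᶜ := by
        ext w
        simp only [Finset.mem_compl, Finset.mem_insert, not_or]
        constructor
        · intro h
          by_cases hw : w = v
          · exact Or.inl hw
          · exact Or.inr ⟨hw, h⟩
        · rintro (rfl | h)
          · exact hρ
          · exact h.2
      rw [this, Finset.sum_insert (by simp)]
    have h3 : io f (we v c) (insert v ρ) =
        ∑ w ∈ (insert v ρ)ᶜ, sg K w (insert v ρ) * (f w * (sg K v (insert w ρ) *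
          c (insert w ρ))) := by
      unfold io
      refine Finset.sum_congr rfl fun w hw => ?_
      simp only [Finset.mem_compl, Finset.mem_insert, not_or] at hw
      unfold we
      rw [if_pos (by simp)]
      have : (insert w (insert v ρ)).erase v = insert w ρ := by
        rw [Finset.insert_comm, Finset.erase_insert]
        simp only [Finset.mem_insert, not_or]
        exact ⟨fun h => hw.1 h.symm, hρ⟩
      rw [this]
    rw [h1, h2, h3, mul_add, ← mul_assoc, sg_mul_self, one_mul, Finset.mul_sum, add_assoc,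
      ← Finset.sum_add_distrib, Finset.sum_eq_zero, add_zero]
    intro w hw
    simp only [Finset.mem_compl, Finset.mem_insert, not_or] at hw
    have h4 := sg_swap (K := K) hρ hw.2 (fun h => hw.1 h.symm)
    have h5 : sg K v ρ * (sg K w ρ * (f w * c (insert w ρ))) +
        sg K w (insert v ρ) * (f w * (sg K v (insert w ρ) * c (insert w ρ))) =
        sg K v ρ * sg K w (insert v ρ) * (sg K w ρ * sg K w (insert v ρ) +
          sg K v ρ * sg K v (insert w ρ)) * (f w * c (insert w ρ)) := by
      have h6 : sg K w (insert v ρ) * sg K w (insert v ρ) = 1 := sg_mul_self _ _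
      have h7 : sg K v ρ * sg K v ρ = 1 := sg_mul_self _ _
      linear_combination (-(sg K v ρ * sg K w ρ * (f w * c (insert w ρ)))) * h6 -
        (sg K w (insert v ρ) * sg K v (insert w ρ) * (f w * c (insert w ρ))) * h7
    rw [h5]
    have h8 : sg K w ρ * sg K w (insert v ρ) + sg K v ρ * sg K v (insert w ρ) = 0 := by
      rw [sg_insert hρ, sg_insert hw.2]
      have h6 : sg K w ρ * sg K w ρ = 1 := sg_mul_self _ _
      have h7 : sg K v ρ * sg K v ρ = 1 := sg_mul_self _ _
      rcases lt_or_gt_of_ne hw.1 with h | h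
      · rw [if_pos h, if_neg (not_lt.2 h.le)]
        linear_combination h6 - h7
      · rw [if_pos h, if_neg (not_lt.2 h.le)]
        linear_combination h7 - h6
    rw [h8]
    ring
  · have h1 : we v (io f c) τ = 0 := by
      unfold we
      rw [if_neg hv]
    have h2 : io f (we v c) τ = sg K v τ * (f v * (sg K v τ * c τ)) := by
      unfold io
      rw [Finset.sum_eq_single v]
      · unfold we
        rw [if_pos (Finset.mem_insert_self v τ), Finset.erase_insert hv]
      · intro w hw hwv
        unfold we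
        rw [if_neg]
        · ring
        · simp only [Finset.mem_insert, not_or]
          exact ⟨fun h => hwv h.symm, hv⟩
      · intro h
        exact absurd (Finset.mem_compl.2 hv) h
    rw [h1, h2]
    linear_combination (f v * c τ) * (sg_mul_self v τ : sg K v τ * sg K v τ = 1)

theorem bd_we (v : Fin n) (c : Finset (Fin n) → K) : bd (we v c) = c - we v (bd c) := by
  have h := we_io v (fun _ => (1 : K)) c
  rw [← bd_eq, ← bd_eq] at h
  funext τ
  have h2 := congrFun h τ
  simp only [Pi.add_apply, one_mul] at h2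
  rw [Pi.sub_apply, ← h2]
  ring

/-- the difference of two wedges anticommutes with contractions if the values agree -/
def dw (a b : Fin n) (c : Finset (Fin n) → K) : Finset (Fin n) → K := we b c - we a c

theorem dw_io (a b : Fin n) (f : Fin n → K) (c : Finset (Fin n) → K) (τ : Finset (Fin n)) :
    dw a b (io f c) τ = -io f (dw a b c) τ + (f b - f a) * c τ := by
  have h1 := congrFun (we_io b f c) τ
  have h2 := congrFun (we_io a f c) τ
  simp only [Pi.add_apply] at h1 h2
  unfold dw
  rw [io_sub, Pi.sub_apply, Pi.sub_apply]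
  linear_combination h1 - h2

theorem dw_add (a b : Fin n) (c d : Finset (Fin n) → K) :
    dw a b (c + d) = dw a b c + dw a b d := by
  unfold dw
  rw [we_add, we_add]
  abel

theorem dw_neg (a b : Fin n) (c : Finset (Fin n) → K) : dw a b (-c) = -dw a b c := by
  unfold dw
  rw [we_neg, we_neg]
  abel

theorem dw_zero (a b : Fin n) : dw a b (0 : Finset (Fin n) → K) = 0 := by
  unfold dw
  rw [we_zero, we_zero, sub_zero]

/-- the basis element `e_F` -/
def ee (K : Type*) [Field K] {n : ℕ} (F : Finset (Fin n)) (σ : Finset (Fin n)) : K :=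
  if σ = F then 1 else 0

theorem ee_self (F : Finset (Fin n)) : ee K F F = 1 := if_pos rfl

theorem ee_ne {F σ : Finset (Fin n)} (h : ee K F σ ≠ 0) : σ = F := by
  by_contra hne
  exact h (if_neg hne)

theorem io_ne {f : Fin n → K} {c : Finset (Fin n) → K} {τ : Finset (Fin n)} (h : io f c τ ≠ 0) :
    ∃ v, v ∉ τ ∧ f v ≠ 0 ∧ c (insert v τ) ≠ 0 := by
  obtain ⟨v, hv, hne⟩ := Finset.exists_ne_zero_of_sum_ne_zero h
  refine ⟨v, Finset.mem_compl.1 hv, fun h0 => hne ?_, fun h0 => hne ?_⟩
  · rw [h0]; ring
  · rw [h0]; ring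

theorem bd_ne {c : Finset (Fin n) → K} {τ : Finset (Fin n)} (h : bd c τ ≠ 0) :
    ∃ v, v ∉ τ ∧ c (insert v τ) ≠ 0 := by
  rw [bd_eq] at h
  obtain ⟨v, h1, _, h3⟩ := io_ne h
  exact ⟨v, h1, h3⟩

theorem we_ne {v : Fin n} {c : Finset (Fin n) → K} {τ : Finset (Fin n)} (h : we v c τ ≠ 0) :
    v ∈ τ ∧ c (τ.erase v) ≠ 0 := by
  unfold we at h
  split_ifs at h with hv
  · exact ⟨hv, fun h0 => h (by rw [h0, mul_zero])⟩
  · exact absurd rfl h

theorem dw_ne {a b : Fin n} {c : Finset (Fin n) → K} {τ : Finset (Fin n)} (h : dw a b c τ ≠ 0) :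
    ∃ v, (v = a ∨ v = b) ∧ v ∈ τ ∧ c (τ.erase v) ≠ 0 := by
  by_cases hb : we b c τ = 0
  · have ha : we a c τ ≠ 0 := by
      intro h0
      apply h
      unfold dw
      rw [Pi.sub_apply, hb, h0, sub_zero]
    exact ⟨a, Or.inl rfl, we_ne ha⟩
  · exact ⟨b, Or.inr rfl, we_ne hb⟩

end Pool.Agent.Lib.MP_a9db68_al
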