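import Pool.Agent.Lib.MP_a9db68_al.Mt

/-! Monomials in powers of the edge ideal; components. -/

set_option autoImplicit false

namespace Pool.Agent.Lib.MP_a9db68_al

open MvPolynomial

variable {K : Type*} [Field K] {n : ℕ}

theorem X_mul_X (u v : Fin n) : (X u * X v : MvPolynomial (Fin n) K) =
    monomial (Finsupp.single u 1 + Finsupp.single v 1) 1 := by
  rw [X, X, monomial_mul, one_mul]

theorem pow_le (G : SimpleGraph (Fin n)) (k : ℕ) : edgeIdeal K G ^ k ≤
    Ideal.span ((fun s => monomial s (1 : K)) '' {b | Mt G k b}) := by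
  induction k with
  | zero =>
    rw [pow_zero, Ideal.one_eq_top]
    refine top_le_iff.2 ((Ideal.eq_top_iff_one _).2 (Ideal.subset_span ⟨0, Mt.zero _, rfl⟩))
  | succ k ih =>
    rw [pow_succ]
    refine (Ideal.mul_mono_left ih).trans ?_
    unfold edgeIdeal
    rw [Ideal.span_mul_span, Ideal.span_le]
    intro f hf
    obtain ⟨_, ⟨b, hb, rfl⟩, _, ⟨u, v, huv, rfl⟩, rfl⟩ := hf
    refine Ideal.subset_span ⟨b + (Finsupp.single u 1 + Finsupp.single v 1), Mt.succ huv hb, ?_⟩
    simp only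
    rw [X_mul_X, monomial_mul, one_mul]

theorem mem_pow_iff (G : SimpleGraph (Fin n)) (k : ℕ) (b : Fin n →₀ ℕ) :
    monomial b (1 : K) ∈ edgeIdeal K G ^ k ↔ Mt G k b := by
  constructor
  · intro h
    have h1 := mem_ideal_span_monomial_image.1 (pow_le G k h) b (by simp)
    obtain ⟨s, hs, hsb⟩ := h1
    exact Mt.mono hs hsb
  · intro h
    induction h with
    | zero b => rw [pow_zero, Ideal.one_eq_top]; exact Submodule.mem_top
    | @succ k b u v h _ ih =>
      rw [pow_succ]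
      have h1 : monomial (b + (Finsupp.single u 1 + Finsupp.single v 1)) (1 : K) =
          monomial b 1 * (X u * X v) := by
        rw [X_mul_X, monomial_mul, one_mul]
      rw [h1]
      exact Ideal.mul_mem_mul ih (Ideal.subset_span ⟨u, v, h, rfl⟩)

theorem ind_apply (σ : Finset (Fin n)) (v : Fin n) : ind σ v = if v ∈ σ then 1 else 0 := by
  unfold ind
  rw [Finsupp.finsetSum_apply]
  simp only [Finsupp.single_apply]
  rw [Finset.sum_ite_eq']

theorem ind_insert {v : Fin n} {σ : Finset (Fin n)} (h : v ∉ σ) :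
    ind (insert v σ) = ind σ + Finsupp.single v 1 := by
  unfold ind
  rw [Finset.sum_insert h, add_comm]

theorem ind_le_of_subset_support {σ : Finset (Fin n)} {a : Fin n →₀ ℕ} (h : σ ⊆ a.support) :
    ind σ ≤ a := by
  intro v
  rw [ind_apply]
  split_ifs with hv
  · exact Nat.one_le_iff_ne_zero.2 (Finsupp.mem_support_iff.1 (h hv))
  · exact Nat.zero_le _

theorem subset_support_of_ind_le {σ : Finset (Fin n)} {a : Fin n →₀ ℕ} (h : ind σ ≤ a) :
    σ ⊆ a.support := by
  intro v hv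
  have h1 := h v
  rw [ind_apply, if_pos hv] at h1
  rw [Finsupp.mem_support_iff]
  omega

theorem ind_mono {σ τ : Finset (Fin n)} (h : σ ⊆ τ) : ind σ ≤ ind τ := by
  intro v
  rw [ind_apply, ind_apply]
  split_ifs with h1 h2
  · exact le_rfl
  · exact absurd (h h1) h2
  · exact Nat.zero_le _
  · exact le_rfl

theorem sub_of_conn {G : SimpleGraph (Fin n)} {C D : Finset (Fin n)}
    (hD : (G.induce (D : Set (Fin n))).Connected) {x : Fin n} (hxD : x ∈ D) (hxC : x ∈ C)
    (hcl : ∀ u ∈ C, u ∈ D → ∀ v ∈ D, G.Adj u v → v ∈ C) : D ⊆ C := by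
  have key : ∀ (a b : (D : Set (Fin n))) (_ : (G.induce (D : Set (Fin n))).Walk a b),
      a.1 ∈ C → b.1 ∈ C := by
    intro a b p
    induction p with
    | nil => exact id
    | @cons a c b h p ih =>
      intro ha
      exact ih (hcl a.1 ha a.2 c.1 c.2 h)
  intro y hy
  obtain ⟨p⟩ := hD.preconnected ⟨x, hxD⟩ ⟨y, hy⟩
  exact key _ _ p hxC

theorem IsComp.eq_of_mem {G : SimpleGraph (Fin n)} {F C D : Finset (Fin n)} (hC : IsComp G F C)
    (hD : IsComp G F D) {x : Fin n} (hxC : x ∈ C) (hxD : x ∈ D) : C = D := by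
  apply subset_antisymm
  · exact sub_of_conn hC.2.1 hxC hxD fun u hu _ v hv h => hD.2.2 u hu v (hC.1 hv) h
  · exact sub_of_conn hD.2.1 hxD hxC fun u hu _ v hv h => hC.2.2 u hu v (hD.1 hv) h

theorem IsComp.nonempty {G : SimpleGraph (Fin n)} {F C : Finset (Fin n)} (hC : IsComp G F C) :
    C.Nonempty := by
  obtain ⟨x⟩ := hC.2.1.nonempty
  exact ⟨x.1, x.2⟩

theorem exists_col {G : SimpleGraph (Fin n)} {C : Finset (Fin n)}
    (h : (G.induce (C : Set (Fin n))).Colorable 2) :
    ∃ col : Fin n → Bool, ∀ u ∈ C, ∀ v ∈ C, G.Adj u v → col u ≠ col v := by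
  obtain ⟨c⟩ := h
  refine ⟨fun v => if hv : v ∈ C then decide (c ⟨v, hv⟩ = 0) else false, ?_⟩
  intro u hu v hv huv
  have h1 : c ⟨u, hu⟩ ≠ c ⟨v, hv⟩ := c.valid (show (G.induce (C : Set (Fin n))).Adj _ _ from huv)
  dsimp only
  rw [dif_pos hu, dif_pos hv]
  intro h2
  rw [decide_eq_decide] at h2
  apply h1
  generalize c ⟨u, hu⟩ = p at *
  generalize c ⟨v, hv⟩ = q at *
  fin_cases p <;> fin_cases q <;> simp_all

theorem exists_mono_edge {G : SimpleGraph (Fin n)} {C : Finset (Fin n)}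
    (h : ¬ (G.induce (C : Set (Fin n))).Colorable 2) (col : Fin n → Bool) :
    ∃ u ∈ C, ∃ v ∈ C, G.Adj u v ∧ col u = col v := by
  by_contra hcon
  push Not at hcon
  apply h
  refine ⟨⟨fun v => if col v.1 then 0 else 1, ?_⟩⟩
  intro u v huv
  have h1 := hcon u.1 u.2 v.1 v.2 huv
  simp only [SimpleGraph.top_adj, ne_eq]
  intro h2
  apply h1
  cases hu : col u.1 <;> cases hv : col v.1 <;> simp_all

end Pool.Agent.Lib.MP_a9db68_al
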