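import Pool.Agent.Lib.MP_a9db68_al.Chain
import Pool.Agent.Lib.MP_a9db68_al.Mem

/-! Configurations of separated pieces give nonzero `Tor`. -/

set_option autoImplicit false

namespace Pool.Agent.Lib.MP_a9db68_al

open MvPolynomial

variable {K : Type*} [Field K] {n : ℕ}

/-- one piece: the set `B` and the vertices `a ∉ B`, `b ∈ B` -/
abbrev Pc (n : ℕ) : Type := Finset (Fin n) × Fin n × Fin n

/-- the multiset of the entries of a list -/
noncomputable def ls (bs : List (Fin n)) : Fin n →₀ ℕ := (bs.map fun b => Finsupp.single b 1).sum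

theorem ls_nil : ls ([] : List (Fin n)) = 0 := rfl

theorem ls_cons (b : Fin n) (bs : List (Fin n)) : ls (b :: bs) = Finsupp.single b 1 + ls bs := by
  unfold ls
  rw [List.map_cons, List.sum_cons]

theorem ls_degree (bs : List (Fin n)) : (ls bs).degree = bs.length := by
  induction bs with
  | nil => simp [ls_nil]
  | cons b bs ih =>
    rw [ls_cons, map_add, ih, Finsupp.degree_single, List.length_cons]
    omega

/-- configurations -/
structure Conf (G : SimpleGraph (Fin n)) (F : Finset (Fin n)) (L : List (Pc n))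
    (w : Fin n →₀ ℕ) (κ : ℕ) : Prop where
  wsupp : ∀ v, w v ≠ 0 → v ∈ F
  hB : ∀ p ∈ L, p.1 ⊆ F ∧ p.2.1 ∈ F ∧ p.2.2 ∈ F ∧ p.2.1 ∉ p.1 ∧ p.2.2 ∈ p.1
  pair : L.Pairwise fun p q => Disjoint p.1 q.1 ∧ q.2.1 ∉ p.1 ∧ q.2.2 ∉ p.1
  mt : Mt G κ w
  cross : ∀ bs, List.Forall₂ (fun b (p : Pc n) => b ∈ p.1) bs L → ∀ v ∈ F, (∀ p ∈ L, v ∉ p.1) →
    Mt G (κ + 1) (w + ls bs + Finsupp.single v 1)
  count : ∀ ds, List.Forall₂ (fun d (p : Pc n) => d = p.2.1 ∨ d = p.2.2) ds L →
    ¬ Mt G (κ + 1) (w + ls ds)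

/-- indicator function -/
def chi (K : Type*) [Field K] {n : ℕ} (B : Finset (Fin n)) (v : Fin n) : K := if v ∈ B then 1 else 0

/-- contraction with all sets of the list -/
def ioL : List (Pc n) → (Finset (Fin n) → K) → Finset (Fin n) → K
  | [], c => c
  | p :: L, c => io (chi K p.1) (ioL L c)

/-- the product of the differences of wedges -/
def dwL : List (Pc n) → (Finset (Fin n) → K) → Finset (Fin n) → K
  | [], c => c
  | p :: L, c => dw p.2.1 p.2.2 (dwL L c)

theorem io_smul (f : Fin n → K) (s : K) (c : Finset (Fin n) → K) : io f (s • c) = s • io f c := by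
  funext τ
  simp only [io, Pi.smul_apply, smul_eq_mul, Finset.mul_sum]
  exact Finset.sum_congr rfl fun v _ => by ring

theorem we_smul (v : Fin n) (s : K) (c : Finset (Fin n) → K) : we v (s • c) = s • we v c := by
  funext τ
  simp only [we, Pi.smul_apply, smul_eq_mul]
  split_ifs
  · ring
  · ring

theorem dw_smul (a b : Fin n) (s : K) (c : Finset (Fin n) → K) :
    dw a b (s • c) = s • dw a b c := by
  unfold dw
  rw [we_smul, we_smul, smul_sub]

theorem dwL_sub (L : List (Pc n)) (c d : Finset (Fin n) → K) :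
    dwL L (c - d) = dwL L c - dwL L d := by
  induction L with
  | nil => rfl
  | cons p L ih =>
    simp only [dwL]
    rw [ih, sub_eq_add_neg, dw_add, dw_neg, ← sub_eq_add_neg]

theorem dwL_zero (L : List (Pc n)) : dwL L (0 : Finset (Fin n) → K) = 0 := by
  induction L with
  | nil => rfl
  | cons p L ih =>
    simp only [dwL]
    rw [ih, dw_zero]

theorem dw_io_eq (a b : Fin n) (f : Fin n → K) (hf : f b = f a) (c : Finset (Fin n) → K) :
    dw a b (io f c) = -io f (dw a b c) := by
  funext τ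
  rw [dw_io, hf, sub_self, zero_mul, add_zero, Pi.neg_apply]

theorem dwL_io (L : List (Pc n)) (f : Fin n → K) (hf : ∀ p ∈ L, f p.2.2 = f p.2.1)
    (c : Finset (Fin n) → K) : dwL L (io f c) = (-1 : K) ^ L.length • io f (dwL L c) := by
  induction L with
  | nil => simp [dwL]
  | cons p L ih =>
    simp only [dwL]
    rw [ih (fun q hq => hf q (List.mem_cons_of_mem p hq)), dw_smul,
      dw_io_eq _ _ f (hf p List.mem_cons_self), List.length_cons, pow_succ]
    rw [smul_neg, mul_neg, mul_one, neg_smul]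

theorem dw_ee {a b : Fin n} {F : Finset (Fin n)} (ha : a ∈ F) (hb : b ∈ F) :
    dw a b (ee K F) = 0 := by
  funext τ
  by_contra hne
  obtain ⟨v, hv, hvτ, h⟩ := dw_ne hne
  have h1 := ee_ne h
  have h2 : v ∈ F := by
    rcases hv with rfl | rfl
    · exact ha
    · exact hb
  rw [← h1] at h2
  exact Finset.notMem_erase v τ h2

theorem dwL_ioL {F : Finset (Fin n)} (L : List (Pc n))
    (hB : ∀ p ∈ L, p.1 ⊆ F ∧ p.2.1 ∈ F ∧ p.2.2 ∈ F ∧ p.2.1 ∉ p.1 ∧ p.2.2 ∈ p.1)
    (hp : L.Pairwise fun p q => Disjoint p.1 q.1 ∧ q.2.1 ∉ p.1 ∧ q.2.2 ∉ p.1) :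
    ∃ s : K, s ≠ 0 ∧ dwL L (ioL L (ee K F)) = s • ee K F := by
  induction L with
  | nil => exact ⟨1, one_ne_zero, by simp [dwL, ioL]⟩
  | cons p L ih =>
    rw [List.pairwise_cons] at hp
    obtain ⟨s, hs, ih⟩ := ih (fun q hq => hB q (List.mem_cons_of_mem p hq)) hp.2
    obtain ⟨_, h1, h2, h3, h4⟩ := hB p List.mem_cons_self
    refine ⟨(-1 : K) ^ L.length * s, mul_ne_zero (pow_ne_zero _ (by simp)) hs, ?_⟩
    simp only [dwL, ioL]
    rw [dwL_io L _ ?_, ih, io_smul, dw_smul, dw_smul, smul_smul]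
    · congr 1
      funext τ
      rw [dw_io, dw_ee h1 h2, io_zero]
      simp [chi, h3, h4]
    · intro q hq
      unfold chi
      rw [if_neg (hp.1 q hq).2.1, if_neg (hp.1 q hq).2.2]

theorem ioL_ne {F : Finset (Fin n)} (L : List (Pc n)) {σ : Finset (Fin n)}
    (h : ioL L (ee K F) σ ≠ 0) :
    ∃ bs, List.Forall₂ (fun b (p : Pc n) => b ∈ p.1) bs L ∧ ind F = ind σ + ls bs := by
  induction L generalizing σ with
  | nil =>
    refine ⟨[], List.Forall₂.nil, ?_⟩
    have h1 := ee_ne h
    rw [h1, ls_nil, add_zero]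
  | cons p L ih =>
    obtain ⟨v, hv, hvB, h2⟩ := io_ne h
    obtain ⟨bs, hbs, h3⟩ := ih h2
    refine ⟨v :: bs, List.Forall₂.cons ?_ hbs, ?_⟩
    · by_contra hcon
      exact hvB (if_neg hcon)
    · rw [h3, ind_insert hv, ls_cons, add_assoc]

theorem dwL_ne (L : List (Pc n)) {g : Finset (Fin n) → K} {τ : Finset (Fin n)}
    (h : dwL L g τ ≠ 0) : ∃ σ ds, g σ ≠ 0 ∧
      List.Forall₂ (fun d (p : Pc n) => d = p.2.1 ∨ d = p.2.2) ds L ∧ ind τ = ind σ + ls ds := by
  induction L generalizing τ with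
  | nil => exact ⟨τ, [], h, List.Forall₂.nil, by rw [ls_nil, add_zero]⟩
  | cons p L ih =>
    obtain ⟨v, hv, hvτ, h2⟩ := dw_ne h
    obtain ⟨σ, ds, h3, h4, h5⟩ := ih h2
    refine ⟨σ, v :: ds, h3, List.Forall₂.cons hv h4, ?_⟩
    have h6 : ind τ = ind (τ.erase v) + Finsupp.single v 1 := by
      rw [← ind_insert (Finset.notMem_erase v τ), Finset.insert_erase hvτ]
    rw [h6, h5, ls_cons]
    abel

theorem top_zero {F : Finset (Fin n)} {v0 : Fin n} (hv0 : v0 ∈ F) {Y : Finset (Fin n) → K}
    (hY : ∀ τ, Y τ ≠ 0 → τ ⊆ F) (hb : bd Y = 0) : Y F = 0 := by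
  have h1 := congrFun hb (F.erase v0)
  rw [bd_eq] at h1
  unfold io at h1
  rw [Finset.sum_eq_single v0] at h1
  · rw [Finset.insert_erase hv0, one_mul, Pi.zero_apply] at h1
    rcases mul_eq_zero.1 h1 with h2 | h2
    · exfalso
      have h3 := sg_mul_self (K := K) v0 (F.erase v0)
      rw [h2, zero_mul] at h3
      exact zero_ne_one h3
    · exact h2
  · intro v hv hvv
    have h2 : Y (insert v (F.erase v0)) = 0 := by
      by_contra hne
      have h3 := hY _ hne (Finset.mem_insert_self v _)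
      exact (Finset.mem_compl.1 hv) (Finset.mem_erase.2 ⟨hvv, h3⟩)
    rw [h2]
    ring
  · intro h
    exact absurd (Finset.mem_compl.2 (Finset.notMem_erase v0 F)) h

theorem io_ioL_zero (L : List (Pc n)) (p : Pc n) (hp : p ∈ L) (c : Finset (Fin n) → K) :
    io (chi K p.1) (ioL L c) = 0 := by
  induction L with
  | nil => exact absurd hp (List.not_mem_nil)
  | cons q L ih =>
    simp only [ioL]
    rcases List.mem_cons.1 hp with rfl | h
    · exact io_self _ _
    · rw [io_anti, ih h, io_zero, neg_zero]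

/-- the sum of the indicator functions -/
def chiL (K : Type*) [Field K] {n : ℕ} : List (Pc n) → Fin n → K
  | [], _ => 0
  | p :: L, v => chi K p.1 v + chiL K L v

theorem io_chiL_zero (L M : List (Pc n)) (hM : ∀ p ∈ M, p ∈ L) (c : Finset (Fin n) → K) :
    io (chiL K M) (ioL L c) = 0 := by
  induction M with
  | nil =>
    funext τ
    simp [chiL, io]
  | cons p M ih =>
    have h1 : chiL K (p :: M) = fun v => chi K p.1 v + chiL K M v := rfl
    rw [h1, io_fadd, io_ioL_zero L p (hM p List.mem_cons_self),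
      ih (fun q hq => hM q (List.mem_cons_of_mem p hq)), add_zero]

theorem chiL_zero (L : List (Pc n)) (v : Fin n) (h : ∀ p ∈ L, v ∉ p.1) : chiL K L v = 0 := by
  induction L with
  | nil => rfl
  | cons p L ih =>
    simp only [chiL]
    rw [ih fun q hq => h q (List.mem_cons_of_mem p hq), add_zero]
    exact if_neg (h p List.mem_cons_self)

theorem chiL_one (L : List (Pc n))
    (hp : L.Pairwise fun p q => Disjoint p.1 q.1 ∧ q.2.1 ∉ p.1 ∧ q.2.2 ∉ p.1) (v : Fin n)
    (h : ∃ p ∈ L, v ∈ p.1) : chiL K L v = 1 := by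
  induction L with
  | nil =>
    obtain ⟨p, hp, _⟩ := h
    exact absurd hp (List.not_mem_nil)
  | cons p L ih =>
    rw [List.pairwise_cons] at hp
    simp only [chiL]
    by_cases hv : v ∈ p.1
    · rw [chiL_zero L v fun q hq hvq => Finset.disjoint_left.1 (hp.1 q hq).1 hv hvq, add_zero]
      exact if_pos hv
    · have h1 : chi K p.1 v = 0 := if_neg hv
      obtain ⟨q, hq, hvq⟩ := h
      rcases List.mem_cons.1 hq with rfl | hq
      · exact absurd hvq hv
      · rw [h1, zero_add, ih hp.2 ⟨q, hq, hvq⟩]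

theorem bd_ioL_ne {F : Finset (Fin n)} (L : List (Pc n))
    (hp : L.Pairwise fun p q => Disjoint p.1 q.1 ∧ q.2.1 ∉ p.1 ∧ q.2.2 ∉ p.1)
    {σ : Finset (Fin n)} (h : bd (ioL L (ee K F)) σ ≠ 0) :
    ∃ bs v, List.Forall₂ (fun b (p : Pc n) => b ∈ p.1) bs L ∧ v ∈ F ∧ (∀ p ∈ L, v ∉ p.1) ∧
      ind F = ind σ + ls bs + Finsupp.single v 1 := by
  have h1 : bd (ioL L (ee K F)) = io (fun v => 1 - chiL K L v) (ioL L (ee K F)) := by
    have h2 : (fun _ => (1 : K)) = fun v : Fin n => (1 - chiL K L v) + chiL K L v := by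
      funext v
      ring
    rw [bd_eq, h2, io_fadd, io_chiL_zero L L (fun _ h => h), add_zero]
  rw [h1] at h
  obtain ⟨v, hv, hv2, hv3⟩ := io_ne h
  obtain ⟨bs, hbs, h4⟩ := ioL_ne L hv3
  rw [ind_insert hv] at h4
  refine ⟨bs, v, hbs, ?_, ?_, by rw [h4]; abel⟩
  · by_contra hvF
    have h5 := congrArg (fun f : Fin n →₀ ℕ => f v) h4
    simp only [Finsupp.add_apply, ind_apply, if_neg hvF, Finsupp.single_eq_same] at h5
    omega
  · intro p hp' hvp
    apply hv2
    rw [chiL_one L hp v ⟨p, hp', hvp⟩, sub_self]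

theorem ind_degree (σ : Finset (Fin n)) : (ind σ).degree = σ.card := by
  unfold ind
  rw [map_sum]
  simp [Finsupp.degree_single]

theorem forall2_length {α β : Type*} {R : α → β → Prop} {l : List α} {l' : List β}
    (h : List.Forall₂ R l l') : l.length = l'.length := by
  induction h with
  | nil => rfl
  | cons _ _ ih => rw [List.length_cons, List.length_cons, ih]

theorem tor_of_conf {G : SimpleGraph (Fin n)} {F : Finset (Fin n)} {L : List (Pc n)}
    {w : Fin n →₀ ℕ} {κ i : ℕ} (h : Conf G F L w κ) (hF : F.card = L.length + (i + 1)) :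
    TorNZ (edgeIdeal K G ^ (κ + 1)) i (ind F + w) := by
  have hFn : F.Nonempty := Finset.card_pos.1 (by omega)
  obtain ⟨v0, hv0⟩ := hFn
  refine ⟨bd (ioL L (ee K F)), ?_, bd_bd _, ?_⟩
  · intro σ hσ
    obtain ⟨bs, v, hbs, hvF, hvL, hind⟩ := bd_ioL_ne L h.pair hσ
    have e1 : ind F + w = w + ls bs + Finsupp.single v 1 + ind σ := by rw [hind]; abel
    refine ⟨?_, ?_, ?_⟩
    · have h1 := congrArg Finsupp.degree hind
      rw [map_add, map_add, ind_degree, ind_degree, ls_degree, Finsupp.degree_single, hF,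
        forall2_length hbs] at h1
      omega
    · rw [e1]
      exact le_add_self
    · rw [mem_pow_iff, e1, add_tsub_cancel_right]
      exact h.cross bs hbs v hvF hvL
  · rintro ⟨g, hg, hbg⟩
    obtain ⟨s, hs, hD⟩ := dwL_ioL (K := K) L h.hB h.pair
    have hby : bd (ioL L (ee K F) - g) = 0 := by
      rw [bd_eq, io_sub, ← bd_eq, ← bd_eq, hbg, sub_self]
    have hbY : bd (dwL L (ioL L (ee K F) - g)) = 0 := by
      have h1 := dwL_io L (fun _ => (1 : K)) (fun _ _ => rfl) (ioL L (ee K F) - g)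
      rw [← bd_eq, ← bd_eq, hby, dwL_zero] at h1
      have h2 := congrArg (fun c => (-1 : K) ^ L.length • c) h1
      simp only [smul_zero, smul_smul, ← mul_pow] at h2
      simpa using h2.symm
    have hgF : ∀ σ, g σ ≠ 0 → σ ⊆ F := by
      intro σ hσ v hv
      by_contra hvF
      have h1 := (hg σ hσ).2.1 v
      have h2 : w v = 0 := by
        by_contra hcon
        exact hvF (h.wsupp v hcon)
      rw [Finsupp.add_apply, ind_apply, ind_apply, if_pos hv, if_neg hvF, h2] at h1
      omega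
    have hyF : ∀ σ, (ioL L (ee K F) - g) σ ≠ 0 → σ ⊆ F := by
      intro σ hσ
      by_cases h1 : g σ = 0
      · have h2 : ioL L (ee K F) σ ≠ 0 := by
          intro h0
          apply hσ
          rw [Pi.sub_apply, h0, h1, sub_zero]
        obtain ⟨bs, _, h3⟩ := ioL_ne L h2
        intro v hv
        by_contra hvF
        have h4 := congrArg (fun f : Fin n →₀ ℕ => f v) h3
        simp only [Finsupp.add_apply, ind_apply, if_neg hvF, if_pos hv] at h4
        omega
      · exact hgF σ h1
    have hYF : ∀ τ, dwL L (ioL L (ee K F) - g) τ ≠ 0 → τ ⊆ F := by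
      intro τ hτ
      obtain ⟨σ, ds, h1, h2, h3⟩ := dwL_ne L hτ
      have h4 := hyF σ h1
      have h5 : ∀ d ∈ ds, d ∈ F := by
        intro d hd
        clear h3 hτ
        have : ∀ (ds : List (Fin n)) (L : List (Pc n)),
            List.Forall₂ (fun d (p : Pc n) => d = p.2.1 ∨ d = p.2.2) ds L →
            (∀ p ∈ L, p.2.1 ∈ F ∧ p.2.2 ∈ F) → ∀ d ∈ ds, d ∈ F := by
          intro ds L h2
          induction h2 with
          | nil => intro _ d hd; exact absurd hd (List.not_mem_nil)
          | @cons e p ds L h _ ih =>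
            intro hL d hd
            rcases List.mem_cons.1 hd with rfl | hd
            · rcases h with rfl | rfl
              · exact (hL p List.mem_cons_self).1
              · exact (hL p List.mem_cons_self).2
            · exact ih (fun q hq => hL q (List.mem_cons_of_mem p hq)) d hd
        exact this ds L h2 (fun p hp => ⟨(h.hB p hp).2.1, (h.hB p hp).2.2.1⟩) d hd
      intro v hv
      by_contra hvF
      have h6 := congrArg (fun f : Fin n →₀ ℕ => f v) h3
      have h7 : v ∉ σ := fun h => hvF (h4 h)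
      have h8 : ∀ ds : List (Fin n), (∀ d ∈ ds, d ∈ F) → ls ds v = 0 := by
        intro ds
        induction ds with
        | nil => intro _; rfl
        | cons d ds ih =>
          intro h
          have h9 : d ≠ v := by
            rintro rfl
            exact hvF (h d List.mem_cons_self)
          rw [ls_cons, Finsupp.add_apply, ih fun e he => h e (List.mem_cons_of_mem d he),
            Finsupp.single_eq_of_ne' h9]
      simp only [Finsupp.add_apply, ind_apply, if_neg h7, if_pos hv, h8 ds h5] at h6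
      omega
    have h1 := top_zero hv0 hYF hbY
    rw [dwL_sub, Pi.sub_apply, hD, Pi.smul_apply, ee_self, smul_eq_mul, mul_one] at h1
    have h2 : dwL L g F = 0 := by
      by_contra hne
      obtain ⟨σ, ds, h3, h4, h5⟩ := dwL_ne L hne
      have h6 := (mem_pow_iff G _ _).1 (hg σ h3).2.2
      have e1 : ind F + w = w + ls ds + ind σ := by rw [h5]; abel
      rw [e1, add_tsub_cancel_right] at h6
      exact h.count ds h4 h6
    rw [h2, sub_zero] at h1
    exact hs h1

end Pool.Agent.Lib.MP_a9db68_al
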