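import Mathlib

/-!
# Homological shift ideals of powers of edge ideals: definitions

`MvPolynomial (Fin n) K` is the polynomial ring `K[x_0, ..., x_(n-1)]`.
-/

set_option autoImplicit false

namespace Pool.Agent.Lib.MP_a9db68_al

open MvPolynomial

/-- The edge ideal `I(G)`, generated by the products `x_u x_v` for the edges `{u, v}` of `G`. -/
noncomputable def edgeIdeal (K : Type*) [Field K] {n : ℕ} (G : SimpleGraph (Fin n)) :
    Ideal (MvPolynomial (Fin n) K) :=
  Ideal.span {f | ∃ u v, G.Adj u v ∧ f = X u * X v}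

/-- The exponent vector of the squarefree monomial `∏_{v ∈ σ} x_v`. -/
noncomputable def ind {n : ℕ} (σ : Finset (Fin n)) : Fin n →₀ ℕ :=
  ∑ v ∈ σ, Finsupp.single v 1

variable {K : Type*} [Field K] {n : ℕ}

/-- The function `c` on the subsets `σ` of the vertex set stands for the element
`∑_σ c(σ) e_σ ⊗ x^(a - σ)` of multidegree `a` of the Koszul complex `K(x_0, ..., x_(n-1); J)`.
`IsChain J a i c`: it is an element of homological degree `i`. -/
def IsChain (J : Ideal (MvPolynomial (Fin n) K)) (a : Fin n →₀ ℕ) (i : ℕ)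
    (c : Finset (Fin n) → K) : Prop :=
  ∀ σ, c σ ≠ 0 → σ.card = i ∧ ind σ ≤ a ∧ monomial (a - ind σ) (1 : K) ∈ J

/-- The differential of the Koszul complex:
`∂ e_σ = ∑_{v ∈ σ} (-1)^(#{w ∈ σ, w < v}) x_v e_(σ \ {v})`. -/
def bd (c : Finset (Fin n) → K) (τ : Finset (Fin n)) : K :=
  ∑ v ∈ τᶜ, (-1) ^ (τ.filter (· < v)).card * c (insert v τ)

/-- `Tor_i^S(K, J)_a ≠ 0`: there is a cycle of homological degree `i` and multidegree `a` in the
Koszul complex of `J` which is not a boundary. -/
def TorNZ (J : Ideal (MvPolynomial (Fin n) K)) (i : ℕ) (a : Fin n →₀ ℕ) : Prop :=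
  ∃ c, IsChain J a i c ∧ bd c = 0 ∧ ¬ ∃ g, IsChain J a (i + 1) g ∧ bd g = c

/-- The `i`th homological shift ideal of the monomial ideal `J`, generated by the monomials `x^a`
with `Tor_i^S(K, J)_a ≠ 0`. -/
noncomputable def HS (i : ℕ) (J : Ideal (MvPolynomial (Fin n) K)) : Ideal (MvPolynomial (Fin n) K) :=
  Ideal.span {f | ∃ a, TorNZ J i a ∧ f = monomial a 1}

/-- `C` is (the vertex set of) a connected component of the induced subgraph `G[F]`. -/
def IsComp (G : SimpleGraph (Fin n)) (F C : Finset (Fin n)) : Prop :=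
  C ⊆ F ∧ (G.induce (C : Set (Fin n))).Connected ∧ ∀ u ∈ C, ∀ v ∈ F, G.Adj u v → v ∈ C

/-- The number of bipartite connected components of the induced subgraph `G[F]` (isolated vertices
are bipartite components). -/
noncomputable def bipComps (G : SimpleGraph (Fin n)) (F : Finset (Fin n)) : ℕ :=
  Set.ncard {C : Finset (Fin n) | IsComp G F C ∧ (G.induce (C : Set (Fin n))).Colorable 2}

/-- The ideal generated by the squarefree monomials `∏_{v ∈ F} x_v` of the sets `F` of vertices with
`|F| - bipComps G F ≥ i + 1`. -/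
noncomputable def sqIdeal (K : Type*) [Field K] {n : ℕ} (G : SimpleGraph (Fin n)) (i : ℕ) :
    Ideal (MvPolynomial (Fin n) K) :=
  Ideal.span {f | ∃ F : Finset (Fin n), i + 1 + bipComps G F ≤ F.card ∧ f = ∏ v ∈ F, X v}

/-- The associated primes of `R / J`: the prime ideals of the form `J : f`. -/
def Ass {R : Type*} [CommRing R] (J : Ideal R) : Set (Ideal R) :=
  {p | p.IsPrime ∧ ∃ f : R, ∀ g : R, g ∈ p ↔ g * f ∈ J}

end Pool.Agent.Lib.MP_a9db68_al
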