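import Pool.Agent.Lib.MP_a9db68_al.Chain
import Pool.Agent.Lib.MP_a9db68_al.Mem

/-! The upper bound: a nonzero `Tor` in homological degree `i` and multidegree `a` forces
`i + 1 + (number of bipartite components of the support) ≤ size of the support`. -/

set_option autoImplicit false

namespace Pool.Agent.Lib.MP_a9db68_al

open MvPolynomial

variable {K : Type*} [Field K] {n : ℕ}

theorem kill {F : Finset (Fin n)} {Δ : Finset (Fin n) → Prop}
    (hdown : ∀ σ τ, τ ⊆ σ → Δ σ → Δ τ) {i : ℕ} {J : Type} [DecidableEq J]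
    (C : J → Finset (Fin n)) (u : J → Fin n) (hu : ∀ j, u j ∈ C j) (hCF : ∀ j, C j ⊆ F)
    (hdisj : ∀ j l, j ≠ l → Disjoint (C j) (C l))
    (htog : ∀ j ρ, ρ ⊆ F → C j ⊆ insert (u j) ρ → Δ ρ → Δ (insert (u j) ρ))
    (z : Finset (Fin n) → K) (hz : ∀ σ, z σ ≠ 0 → σ ⊆ F ∧ σ.card = i)
    (hbz : ∀ τ, ¬ Δ τ → bd z τ = 0) (s : Finset J) :
    ∃ x : Finset (Fin n) → K, (∀ σ, x σ ≠ 0 → σ ⊆ F ∧ σ.card = i + 1) ∧
      ∀ τ, τ ⊆ F → ¬ Δ τ → (∃ j ∈ s, C j ⊆ insert (u j) τ) → z τ - bd x τ = 0 := by
  induction s using Finset.induction_on with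
  | empty =>
    refine ⟨0, fun σ h => absurd rfl h, ?_⟩
    rintro τ _ _ ⟨j, hj, _⟩
    exact absurd hj (Finset.notMem_empty j)
  | insert j s hjs ih =>
    classical
    obtain ⟨x, hx, hx2⟩ := ih
    obtain ⟨z', hz'⟩ : ∃ z' : Finset (Fin n) → K, z' = z - bd x := ⟨_, rfl⟩
    have hz's : ∀ σ, z' σ ≠ 0 → σ ⊆ F ∧ σ.card = i := by
      intro σ h
      by_cases h1 : z σ = 0
      · have h2 : bd x σ ≠ 0 := by
          intro h0
          apply h
          rw [hz', Pi.sub_apply, h1, h0, sub_zero]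
        obtain ⟨v, hv, hv2⟩ := bd_ne h2
        obtain ⟨h3, h4⟩ := hx _ hv2
        rw [Finset.card_insert_of_notMem hv] at h4
        exact ⟨(Finset.subset_insert v σ).trans h3, by omega⟩
      · exact hz σ h1
    have hbz' : ∀ τ, ¬ Δ τ → bd z' τ = 0 := by
      intro τ hτ
      rw [hz', bd_eq, io_sub, ← bd_eq, ← bd_eq, bd_bd, sub_zero]
      exact hbz τ hτ
    have hx2' : ∀ τ, τ ⊆ F → ¬ Δ τ → (∃ j ∈ s, C j ⊆ insert (u j) τ) → z' τ = 0 := by
      intro τ h1 h2 h3
      rw [hz']
      exact hx2 τ h1 h2 h3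
    obtain ⟨p, hp⟩ : ∃ p : Finset (Fin n) → K,
        p = fun τ => if C j ⊆ insert (u j) τ then z' τ else 0 := ⟨_, rfl⟩
    have hpne : ∀ τ, p τ ≠ 0 → C j ⊆ insert (u j) τ ∧ z' τ ≠ 0 := by
      intro τ h
      rw [hp] at h
      dsimp only at h
      split_ifs at h with h1
      · exact ⟨h1, h⟩
      · exact absurd rfl h
    refine ⟨x + we (u j) p, ?_, ?_⟩
    · intro σ h
      by_cases h1 : x σ = 0
      · have h2 : we (u j) p σ ≠ 0 := by
          intro h0
          apply h
          rw [Pi.add_apply, h1, h0, add_zero]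
        obtain ⟨h3, h4⟩ := we_ne h2
        obtain ⟨h5, h6⟩ := hz's _ (hpne _ h4).2
        rw [Finset.card_erase_of_mem h3] at h6
        have h7 : 0 < σ.card := Finset.card_pos.2 ⟨_, h3⟩
        refine ⟨?_, by omega⟩
        intro v hv
        by_cases hvu : v = u j
        · rw [hvu]; exact hCF j (hu j)
        · exact h5 (Finset.mem_erase.2 ⟨hvu, hv⟩)
      · exact hx σ h1
    · intro τ hτF hτ hex
      have e1 : z τ - bd (x + we (u j) p) τ = z' τ - p τ + we (u j) (bd p) τ := by
        rw [bd_eq, io_add, ← bd_eq, ← bd_eq, bd_we, hz']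
        simp only [Pi.add_apply, Pi.sub_apply]
        ring
      rw [e1]
      by_cases hA : C j ⊆ insert (u j) τ
      · have e2 : p τ = z' τ := by rw [hp]; exact if_pos hA
        rw [e2, sub_self, zero_add]
        unfold we
        split_ifs with hut
        · have e3 : bd p (τ.erase (u j)) = bd z' (τ.erase (u j)) := by
            unfold bd
            refine Finset.sum_congr rfl fun v _ => ?_
            congr 1
            rw [hp]
            dsimp only
            rw [if_pos]
            intro w hw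
            by_cases hwu : w = u j
            · rw [hwu]; exact Finset.mem_insert_self _ _
            · have h1 := hA hw
              rw [Finset.mem_insert] at h1
              exact Finset.mem_insert_of_mem (Finset.mem_insert_of_mem
                (Finset.mem_erase.2 ⟨hwu, h1.resolve_left hwu⟩))
          rw [e3, hbz' _ ?_, mul_zero]
          intro hΔ
          have h1 := htog j (τ.erase (u j)) ((Finset.erase_subset _ _).trans hτF) (by
            rw [Finset.insert_erase hut]
            intro w hw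
            have h2 := hA hw
            rwa [Finset.insert_eq_of_mem hut] at h2) hΔ
          rw [Finset.insert_erase hut] at h1
          exact hτ h1
        · rfl
      · obtain ⟨l, hl, hCl⟩ := hex
        have hlj : l ≠ j := by
          rintro rfl
          exact hA hCl
        have hls : l ∈ s := (Finset.mem_insert.1 hl).resolve_left hlj
        have h0 : z' τ = 0 := hx2' τ hτF hτ ⟨l, hls, hCl⟩
        have e2 : p τ = 0 := by rw [hp]; exact if_neg hA
        rw [h0, e2, sub_self, zero_add]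
        by_contra hne
        obtain ⟨hut, hne2⟩ := we_ne hne
        obtain ⟨v, hv, hpv⟩ := bd_ne hne2
        obtain ⟨h3, h4⟩ := hpne _ hpv
        obtain ⟨h5, _⟩ := hz's _ h4
        have h6 : C l ⊆ insert (u l) (insert v (τ.erase (u j))) := by
          intro w hw
          by_cases hwl : w = u l
          · rw [hwl]; exact Finset.mem_insert_self _ _
          · have h7 := (Finset.mem_insert.1 (hCl hw)).resolve_left hwl
            have h8 : w ≠ u j := by
              rintro rfl
              exact Finset.disjoint_left.1 (hdisj l j hlj) hw (hu j)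
            exact Finset.mem_insert_of_mem (Finset.mem_insert_of_mem
              (Finset.mem_erase.2 ⟨h8, h7⟩))
        have h9 : Δ (insert v (τ.erase (u j))) := by
          by_contra hcon
          exact h4 (hx2' _ h5 hcon ⟨l, hls, h6⟩)
        have h10 := htog j _ h5 h3 h9
        refine hτ (hdown _ τ ?_ h10)
        intro w hw
        by_cases hwu : w = u j
        · rw [hwu]; exact Finset.mem_insert_self _ _
        · exact Finset.mem_insert_of_mem (Finset.mem_insert_of_mem
            (Finset.mem_erase.2 ⟨hwu, hw⟩))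

theorem bdry {F : Finset (Fin n)} {Δ : Finset (Fin n) → Prop}
    (hdown : ∀ σ τ, τ ⊆ σ → Δ σ → Δ τ) {i : ℕ} {J : Type} [DecidableEq J] [Fintype J]
    (C : J → Finset (Fin n)) (u : J → Fin n) (hu : ∀ j, u j ∈ C j) (hCF : ∀ j, C j ⊆ F)
    (hdisj : ∀ j l, j ≠ l → Disjoint (C j) (C l))
    (htog : ∀ j ρ, ρ ⊆ F → C j ⊆ insert (u j) ρ → Δ ρ → Δ (insert (u j) ρ))
    (c : Finset (Fin n) → K) (hc : ∀ σ, c σ ≠ 0 → σ ⊆ F ∧ σ.card = i ∧ Δ σ)
    (hbc : bd c = 0) {v0 : Fin n} (hv0 : v0 ∈ F) (hcard : F.card < i + 1 + Fintype.card J) :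
    ∃ g : Finset (Fin n) → K, (∀ σ, g σ ≠ 0 → σ ⊆ F ∧ σ.card = i + 1 ∧ Δ σ) ∧ bd g = c := by
  have hz : ∀ σ, we v0 c σ ≠ 0 → σ ⊆ F ∧ σ.card = i + 1 := by
    intro σ h
    obtain ⟨h1, h2⟩ := we_ne h
    obtain ⟨h3, h4, _⟩ := hc _ h2
    rw [Finset.card_erase_of_mem h1] at h4
    have h7 : 0 < σ.card := Finset.card_pos.2 ⟨_, h1⟩
    refine ⟨?_, by omega⟩
    intro v hv
    by_cases hvu : v = v0
    · rw [hvu]; exact hv0
    · exact h3 (Finset.mem_erase.2 ⟨hvu, hv⟩)
  have hbz : bd (we v0 c) = c := by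
    rw [bd_we, hbc, we_zero, sub_zero]
  obtain ⟨x, hx, hx2⟩ := kill hdown C u hu hCF hdisj htog (we v0 c) hz (by
    intro τ hτ
    rw [hbz]
    by_contra hne
    exact hτ (hc τ hne).2.2) Finset.univ
  refine ⟨we v0 c - bd x, ?_, ?_⟩
  · intro σ h
    have hs : σ ⊆ F ∧ σ.card = i + 1 := by
      by_cases h1 : we v0 c σ = 0
      · have h2 : bd x σ ≠ 0 := by
          intro h0
          apply h
          rw [Pi.sub_apply, h1, h0, sub_zero]
        obtain ⟨v, hv, hv2⟩ := bd_ne h2
        obtain ⟨h3, h4⟩ := hx _ hv2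
        rw [Finset.card_insert_of_notMem hv] at h4
        exact ⟨(Finset.subset_insert v σ).trans h3, by omega⟩
      · exact hz σ h1
    refine ⟨hs.1, hs.2, ?_⟩
    by_contra hΔ
    apply h
    rw [Pi.sub_apply]
    apply hx2 σ hs.1 hΔ
    by_contra hcon
    push Not at hcon
    have h1 : ∀ j, ∃ v, v ∈ C j ∧ v ∉ σ := by
      intro j
      obtain ⟨v, hv, hv2⟩ := Finset.not_subset.1 (hcon j (Finset.mem_univ j))
      exact ⟨v, hv, fun h => hv2 (Finset.mem_insert_of_mem h)⟩
    choose w hw hwσ using h1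
    have hinj : Function.Injective w := by
      intro j l hjl
      by_contra hne
      have h2 := hw j
      rw [hjl] at h2
      exact Finset.disjoint_left.1 (hdisj j l hne) h2 (hw l)
    have h2 : Fintype.card J ≤ (F \ σ).card := by
      rw [← Finset.card_univ, ← Finset.card_image_of_injective Finset.univ hinj]
      refine Finset.card_le_card fun v hv => ?_
      obtain ⟨j, _, rfl⟩ := Finset.mem_image.1 hv
      exact Finset.mem_sdiff.2 ⟨hCF j (hw j), hwσ j⟩
    rw [Finset.card_sdiff_of_subset hs.1, hs.2] at h2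
    have h3 := Finset.card_le_card hs.1
    omega
  · rw [bd_eq, io_sub, ← bd_eq, ← bd_eq, bd_bd, hbz, sub_zero]

/-- the free vertex of a bipartite component -/
theorem exists_tog {G : SimpleGraph (Fin n)} {a : Fin n →₀ ℕ} (k : ℕ) {C : Finset (Fin n)}
    (hC : IsComp G a.support C) (hb : (G.induce (C : Set (Fin n))).Colorable 2) :
    ∃ u ∈ C, ∀ ρ, ρ ⊆ a.support → C ⊆ insert u ρ → Mt G k (a - ind ρ) →
      Mt G k (a - ind (insert u ρ)) := by
  classical
  obtain ⟨col, hcol⟩ := exists_col hb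
  obtain ⟨v0, hv0⟩ := hC.nonempty
  obtain ⟨u, hu, hfree⟩ := exists_free (H := inside G C) (col := col)
    (fun x y h => hcol x h.2.1 y h.2.2 h.1) ((a - ind a.support).filter (· ∈ C)) v0
  have huC : u ∈ C := by
    rcases hu with rfl | hu
    · exact hv0
    · by_contra hcon
      exact hu (Finsupp.filter_apply_neg _ _ hcon)
  refine ⟨u, huC, ?_⟩
  intro ρ hρ hCρ h
  by_cases huρ : u ∈ ρ
  · rwa [Finset.insert_eq_of_mem huρ]
  have hins : insert u ρ ⊆ a.support := Finset.insert_subset (hC.1 huC) hρ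
  have hfil : (a - ind (insert u ρ)).filter (· ∈ C) = (a - ind a.support).filter (· ∈ C) := by
    ext v
    by_cases hv : v ∈ C
    · rw [Finsupp.filter_apply_pos _ _ hv, Finsupp.filter_apply_pos _ _ hv, Finsupp.tsub_apply,
        Finsupp.tsub_apply, ind_apply, ind_apply, if_pos (hCρ hv), if_pos (hC.1 hv)]
    · rw [Finsupp.filter_apply_neg _ _ hv, Finsupp.filter_apply_neg _ _ hv]
  refine Mt.key (F := a.support) hC.2.2 huC (hC.1 huC) ?_ ?_ ?_
  · rw [hfil]
    exact hfree
  · intro v hv
    rw [Finsupp.mem_support_iff]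
    intro h0
    apply hv
    rw [Finsupp.tsub_apply, h0, Nat.zero_sub]
  · refine h.congr ?_
    ext v
    have h1 : ind (insert u ρ) v ≤ a v := ind_le_of_subset_support hins v
    rw [ind_insert huρ, Finsupp.add_apply] at h1
    rw [Finsupp.add_apply, Finsupp.tsub_apply, Finsupp.tsub_apply, ind_insert huρ,
      Finsupp.add_apply]
    omega

theorem upper {G : SimpleGraph (Fin n)} {k i : ℕ} (hk : 1 ≤ k) {a : Fin n →₀ ℕ}
    (h : TorNZ (edgeIdeal K G ^ k) i a) : i + 1 + bipComps G a.support ≤ a.support.card := by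
  classical
  by_contra hlt
  obtain ⟨c, hc, hbc, hnb⟩ := h
  apply hnb
  have hc' : ∀ σ, c σ ≠ 0 → σ ⊆ a.support ∧ σ.card = i ∧ Mt G k (a - ind σ) := by
    intro σ h0
    obtain ⟨h1, h2, h3⟩ := hc σ h0
    exact ⟨subset_support_of_ind_le h2, h1, (mem_pow_iff G k _).1 h3⟩
  by_cases hF : a.support.Nonempty
  · obtain ⟨v0, hv0⟩ := hF
    have hfin : {C : Finset (Fin n) | IsComp G a.support C ∧
        (G.induce (C : Set (Fin n))).Colorable 2}.Finite := Set.toFinite _
    have hcardJ : Fintype.card {C : Finset (Fin n) // IsComp G a.support C ∧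
        (G.induce (C : Set (Fin n))).Colorable 2} = bipComps G a.support := by
      unfold bipComps
      rw [← Nat.card_coe_set_eq, Nat.card_eq_fintype_card]
      rfl
    have hex := fun j : {C : Finset (Fin n) // IsComp G a.support C ∧
        (G.induce (C : Set (Fin n))).Colorable 2} => exists_tog (a := a) k j.2.1 j.2.2
    choose u hu htog using hex
    obtain ⟨g, hg, hbg⟩ := bdry (F := a.support) (Δ := fun σ => Mt G k (a - ind σ))
      (fun σ τ hτσ hσ => hσ.mono (tsub_le_tsub_left (ind_mono hτσ) a)) (i := i)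
      (J := {C : Finset (Fin n) // IsComp G a.support C ∧
        (G.induce (C : Set (Fin n))).Colorable 2}) (fun j => j.1) u hu (fun j => j.2.1.1) (by
        intro j l hjl
        rw [Finset.disjoint_left]
        intro x hxj hxl
        exact hjl (Subtype.ext (IsComp.eq_of_mem j.2.1 l.2.1 hxj hxl))) htog c hc' hbc hv0 (by
        rw [hcardJ]
        omega)
    refine ⟨g, ?_, hbg⟩
    intro σ h0
    obtain ⟨h1, h2, h3⟩ := hg σ h0
    exact ⟨h2, ind_le_of_subset_support h1, (mem_pow_iff G k _).2 h3⟩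
  · refine ⟨0, fun σ h0 => absurd rfl h0, ?_⟩
    rw [bd_eq, io_zero]
    funext σ
    by_contra hne
    obtain ⟨h1, _, h3⟩ := hc' σ fun h0 => hne (by rw [h0]; rfl)
    rw [Finset.not_nonempty_iff_eq_empty, Finsupp.support_eq_empty] at hF
    have h4 := h3.degree
    rw [hF] at h4
    simp at h4
    omega

end Pool.Agent.Lib.MP_a9db68_al
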