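import Pool.Agent.Lib.MP_a9db68_al.Sel
import Pool.Agent.Lib.MP_a9db68_al.Upper

/-! The radical and the minimal primes of the homological shift ideals. -/

set_option autoImplicit false

namespace Pool.Agent.Lib.MP_a9db68_al

open MvPolynomial

variable {K : Type*} [Field K] {n : ℕ}

theorem lower (K : Type*) [Field K] {G : SimpleGraph (Fin n)} {k i : ℕ} (hk : max 1 i ≤ k)
    {F : Finset (Fin n)} (hF : i + 1 + bipComps G F ≤ F.card) :
    ∃ a : Fin n →₀ ℕ, a.support ⊆ F ∧ TorNZ (edgeIdeal K G ^ k) i a := by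
  classical
  have hk1 : 1 ≤ k := le_trans (le_max_left 1 i) hk
  have hk2 : i ≤ k := le_trans (le_max_right 1 i) hk
  obtain ⟨F', L, w, hF', hconf, hcard⟩ := sel G F (i + 1) (k - 1) hF (by omega) (by omega)
  have h1 := tor_of_conf (K := K) hconf hcard
  have h2 : k - 1 + 1 = k := by omega
  rw [h2] at h1
  refine ⟨ind F' + w, ?_, h1⟩
  intro v hv
  apply hF'
  by_contra hcon
  have h3 : w v = 0 := by
    by_contra h0
    exact hcon (hconf.wsupp v h0)
  rw [Finsupp.mem_support_iff, Finsupp.add_apply, ind_apply, if_neg hcon, h3] at hv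
  exact hv rfl

theorem monomial_ind (K : Type*) [Field K] (F : Finset (Fin n)) :
    monomial (ind F) (1 : K) = ∏ v ∈ F, X v := by
  classical
  unfold ind
  induction F using Finset.induction_on with
  | empty => simp
  | insert v F hv ih =>
    rw [Finset.sum_insert hv, Finset.prod_insert hv, ← ih, X, monomial_mul, one_mul]

/-- a squarefree monomial ideal is radical -/
theorem sq_radical (P : Finset (Fin n) → Prop) :
    (Ideal.span ((fun s => monomial s (1 : K)) '' {b | ∃ F, P F ∧ b = ind F})).IsRadical := by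
  classical
  intro f hf
  obtain ⟨m, hm⟩ := hf
  set Q := Ideal.span ((fun s => monomial s (1 : K)) '' {b | ∃ F, P F ∧ b = ind F}) with hQ
  -- the part of `f` outside `Q`
  obtain ⟨g, hg⟩ : ∃ g : MvPolynomial (Fin n) K, g = ∑ d ∈ f.support with
      ¬ ∃ F, P F ∧ ind F ≤ d, monomial d (coeff d f) := ⟨_, rfl⟩
  have hfg : f - g ∈ Q := by
    have h1 : f - g = ∑ d ∈ f.support with ∃ F, P F ∧ ind F ≤ d, monomial d (coeff d f) := by
      rw [hg, sub_eq_iff_eq_add]
      conv_lhs => rw [f.as_sum]
      exact (Finset.sum_filter_add_sum_filter_not _ _ _).symm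
    rw [h1]
    refine Ideal.sum_mem _ fun d hd => ?_
    obtain ⟨F, hF, hFd⟩ := (Finset.mem_filter.1 hd).2
    rw [hQ, mem_ideal_span_monomial_image]
    intro x hx
    have h2 := support_monomial_subset hx
    rw [Finset.mem_singleton] at h2
    rw [h2]
    exact ⟨ind F, ⟨F, hF, rfl⟩, hFd⟩
  have hgm : g ^ m ∈ Q := by
    have h1 : f ^ m - g ^ m ∈ Q := by
      obtain ⟨c, hc⟩ := sub_dvd_pow_sub_pow f g m
      rw [hc]
      exact Ideal.mul_mem_right _ _ hfg
    have h2 := Q.sub_mem hm h1
    rwa [sub_sub_cancel] at h2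
  have hg0 : g = 0 := by
    by_contra hne
    let mo : MonomialOrder (Fin n) := MonomialOrder.lex
    have h1 : mo.degree (g ^ m) ∈ (g ^ m).support := mo.degree_mem_support (pow_ne_zero m hne)
    rw [MonomialOrder.degree_pow] at h1
    rw [hQ, mem_ideal_span_monomial_image] at hgm
    obtain ⟨s, ⟨F, hF, rfl⟩, hs⟩ := hgm _ h1
    have h2 : mo.degree g ∈ g.support := mo.degree_mem_support hne
    have h3 : ind F ≤ mo.degree g := by
      intro v
      rw [ind_apply]
      split_ifs with hv
      · have h4 := hs v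
        rw [ind_apply, if_pos hv, Finsupp.smul_apply, smul_eq_mul] at h4
        by_contra hcon
        have h5 : (mo.degree g) v = 0 := by omega
        rw [h5, mul_zero] at h4
        omega
      · exact Nat.zero_le _
    rw [mem_support_iff, hg, coeff_sum] at h2
    obtain ⟨d, hd, hd2⟩ := Finset.exists_ne_zero_of_sum_ne_zero h2
    rw [coeff_monomial] at hd2
    split_ifs at hd2 with hd3
    · apply (Finset.mem_filter.1 hd).2
      rw [hd3, ← hg]
      exact ⟨F, hF, h3⟩
    · exact hd2 rfl
  rw [hg0, sub_zero] at hfg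
  exact hfg

theorem sqIdeal_eq (K : Type*) [Field K] {n : ℕ} (G : SimpleGraph (Fin n)) (i : ℕ) :
    sqIdeal K G i = Ideal.span ((fun s => monomial s (1 : K)) ''
      {b | ∃ F, i + 1 + bipComps G F ≤ F.card ∧ b = ind F}) := by
  unfold sqIdeal
  congr 1
  ext f
  constructor
  · rintro ⟨F, hF, rfl⟩
    exact ⟨ind F, ⟨F, hF, rfl⟩, monomial_ind K F⟩
  · rintro ⟨_, ⟨F, hF, rfl⟩, rfl⟩
    exact ⟨F, hF, monomial_ind K F⟩

theorem radical_HS (K : Type*) [Field K] (G : SimpleGraph (Fin n)) {k i : ℕ}
    (hk : max 1 i ≤ k) : (HS i (edgeIdeal K G ^ k)).radical = sqIdeal K G i := by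
  classical
  have hk1 : 1 ≤ k := le_trans (le_max_left 1 i) hk
  apply le_antisymm
  · have h1 : HS i (edgeIdeal K G ^ k) ≤ sqIdeal K G i := by
      unfold HS
      rw [Ideal.span_le]
      rintro f ⟨a, ha, rfl⟩
      have h2 := upper hk1 ha
      have h3 : monomial a (1 : K) = monomial (a - ind a.support) 1 * ∏ v ∈ a.support, X v := by
        rw [← monomial_ind, monomial_mul, one_mul,
          tsub_add_cancel_of_le (ind_le_of_subset_support subset_rfl)]
      rw [h3]
      exact Ideal.mul_mem_left _ _ (Ideal.subset_span ⟨a.support, h2, rfl⟩)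
    refine (Ideal.radical_mono h1).trans ?_
    rw [sqIdeal_eq]
    exact (sq_radical _).radical.le
  · unfold sqIdeal
    rw [Ideal.span_le]
    rintro f ⟨F, hF, rfl⟩
    obtain ⟨a, haF, ha⟩ := lower K hk hF
    refine ⟨a.degree, ?_⟩
    have h1 : a ≤ a.degree • ind F := by
      intro v
      rw [Finsupp.smul_apply, ind_apply, smul_eq_mul]
      split_ifs with hv
      · rw [mul_one]
        exact Finsupp.le_degree v a
      · have h2 : a v = 0 := by
          by_contra h0
          exact hv (haF (Finsupp.mem_support_iff.2 h0))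
        rw [h2]
        exact Nat.zero_le _
    have h3 : (∏ v ∈ F, X v : MvPolynomial (Fin n) K) ^ a.degree =
        monomial (a.degree • ind F - a) 1 * monomial a 1 := by
      rw [← monomial_ind, monomial_pow, one_pow, monomial_mul, one_mul,
        tsub_add_cancel_of_le h1]
    rw [h3]
    exact Ideal.mul_mem_left _ _ (Ideal.subset_span ⟨a, ha, rfl⟩)

theorem minimalPrimes_sub_ass {R : Type*} [CommRing R] [IsNoetherianRing R] (J : Ideal R) :
    J.minimalPrimes ⊆ Ass J := by
  intro p hp
  refine ⟨hp.1.1, ?_⟩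
  have h1 : (Submodule.colon J {(1 : R)}) = J := by
    ext x
    rw [Submodule.mem_colon_singleton, smul_eq_mul, mul_one]
  rw [← h1] at hp
  obtain ⟨x, hx⟩ := Submodule.exists_eq_colon_of_mem_minimalPrimes hp
  refine ⟨x, fun g => ?_⟩
  rw [hx, Submodule.mem_colon_singleton, smul_eq_mul]

theorem main (K : Type*) [Field K] (n : ℕ) (G : SimpleGraph (Fin n)) (i k : ℕ)
    (hk : max 1 i ≤ k) : (HS i (edgeIdeal K G ^ k)).radical = sqIdeal K G i ∧
      ∀ l, max 1 i ≤ l →
        (HS i (edgeIdeal K G ^ k)).minimalPrimes = (HS i (edgeIdeal K G ^ l)).minimalPrimes ∧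
        (HS i (edgeIdeal K G ^ k)).minimalPrimes ⊆ Ass (HS i (edgeIdeal K G ^ l)) := by
  have h1 := radical_HS K G hk
  refine ⟨h1, fun l hl => ?_⟩
  have h2 : (HS i (edgeIdeal K G ^ k)).minimalPrimes =
      (HS i (edgeIdeal K G ^ l)).minimalPrimes := by
    rw [← Ideal.radical_minimalPrimes, h1, ← radical_HS K G hl, Ideal.radical_minimalPrimes]
  refine ⟨h2, ?_⟩
  rw [h2]
  exact minimalPrimes_sub_ass _

end Pool.Agent.Lib.MP_a9db68_al
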