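import Pool.Agent.Lib.MP_a9db68_al.Defs

/-! Multisets of edges dividing a monomial. -/

set_option autoImplicit false

namespace Pool.Agent.Lib.MP_a9db68_al

open Finsupp

/-- `Mt G k b`: the monomial `x^b` is divisible by a product of `k` edges of `G`. -/
inductive Mt {V : Type*} (G : SimpleGraph V) : ℕ → (V →₀ ℕ) → Prop
  | zero (b : V →₀ ℕ) : Mt G 0 b
  | succ {k : ℕ} {b : V →₀ ℕ} {u v : V} (h : G.Adj u v) (hb : Mt G k b) :
      Mt G (k + 1) (b + (single u 1 + single v 1))

variable {V : Type*} {G H : SimpleGraph V}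

theorem Mt.add_right {k : ℕ} {b : V →₀ ℕ} (h : Mt G k b) (c : V →₀ ℕ) : Mt G k (b + c) := by
  induction h with
  | zero b => exact Mt.zero _
  | succ h _ ih => rw [add_right_comm]; exact Mt.succ h ih

theorem Mt.mono {k : ℕ} {b b' : V →₀ ℕ} (h : Mt G k b) (hb : b ≤ b') : Mt G k b' := by
  obtain ⟨c, rfl⟩ := exists_add_of_le hb
  exact h.add_right c

theorem Mt.congr {k : ℕ} {b b' : V →₀ ℕ} (h : Mt G k b) (hb : b = b') : Mt G k b' := hb ▸ h

theorem Mt.graph (hGH : ∀ u v, G.Adj u v → H.Adj u v) {k : ℕ} {b : V →₀ ℕ} (h : Mt G k b) :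
    Mt H k b := by
  induction h with
  | zero b => exact Mt.zero _
  | succ h _ ih => exact Mt.succ (hGH _ _ h) ih

theorem Mt.pred {k : ℕ} {b : V →₀ ℕ} (h : Mt G (k + 1) b) : Mt G k b := by
  cases h with
  | succ _ hb => exact hb.add_right _

theorem Mt.of_le {k l : ℕ} {b : V →₀ ℕ} (h : Mt G k b) (hl : l ≤ k) : Mt G l b := by
  induction k with
  | zero => rw [Nat.le_zero.1 hl]; exact Mt.zero _
  | succ k ih =>
    rcases Nat.lt_or_ge l (k + 1) with h1 | h1
    · exact ih h.pred (Nat.lt_succ_iff.1 h1)
    · rwa [le_antisymm hl h1]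

theorem Mt.add {k l : ℕ} {b c : V →₀ ℕ} (h : Mt G k b) (h' : Mt G l c) :
    Mt G (k + l) (b + c) := by
  induction h' with
  | zero c => exact h.add_right c
  | succ e _ ih => rw [← add_assoc, ← add_assoc]; exact Mt.succ e ih

theorem Mt.edge {u v : V} (h : G.Adj u v) : Mt G 1 (single u 1 + single v 1) :=
  (Mt.succ h (Mt.zero 0)).congr (zero_add _)

theorem Mt.add_edge {k : ℕ} {b b' : V →₀ ℕ} {u v : V} (hb : Mt G k b) (h : G.Adj u v)
    (e : b + (single u 1 + single v 1) = b') : Mt G (k + 1) b' := (Mt.succ h hb).congr e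

theorem Mt.degree {k : ℕ} {b : V →₀ ℕ} (h : Mt G k b) : 2 * k ≤ b.degree := by
  induction h with
  | zero b => exact Nat.zero_le _
  | succ _ _ ih =>
    rw [map_add, map_add, degree_single, degree_single]
    omega

theorem exists_sub_single {b : V →₀ ℕ} {y : V} (h : b y ≠ 0) : ∃ b', b = b' + single y 1 := by
  refine ⟨b - single y 1, (tsub_add_cancel_of_le ?_).symm⟩
  rw [single_le_iff]
  exact Nat.one_le_iff_ne_zero.2 h

/-- a matching of `b0 + y` either avoids one copy of `y` or uses it -/
theorem Mt.cases_at {k : ℕ} {b : V →₀ ℕ} (h : Mt G k b) :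
    ∀ (y : V) (b0 : V →₀ ℕ), b = b0 + single y 1 → Mt G k b0 ∨
      ∃ (z : V) (b1 : V →₀ ℕ) (k' : ℕ), k = k' + 1 ∧ G.Adj y z ∧ b0 = b1 + single z 1 ∧
        Mt G k' b1 := by
  classical
  induction h with
  | zero b => intro y b0 _; exact Or.inl (Mt.zero _)
  | @succ k b u v h hb ih =>
    intro y b0 e
    by_cases hu : y = u
    · subst hu
      right
      refine ⟨v, b, k, rfl, h, ?_, hb⟩
      have : b + single v 1 + single y 1 = b0 + single y 1 := by rw [← e]; abel
      exact (add_right_cancel this).symm
    by_cases hv : y = v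
    · subst hv
      right
      refine ⟨u, b, k, rfl, h.symm, ?_, hb⟩
      have : b + single u 1 + single y 1 = b0 + single y 1 := by rw [← e]; abel
      exact (add_right_cancel this).symm
    have hby : b y ≠ 0 := by
      have := congrArg (fun f : V →₀ ℕ => f y) e
      simp only [Finsupp.add_apply, single_apply, if_neg (Ne.symm hu), if_neg (Ne.symm hv), if_true,
        add_zero] at this
      omega
    obtain ⟨b', rfl⟩ := exists_sub_single hby
    have hb0 : b0 = b' + (single u 1 + single v 1) := by
      have : b' + (single u 1 + single v 1) + single y 1 = b0 + single y 1 := by rw [← e]; abel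
      exact (add_right_cancel this).symm
    rcases ih y b' rfl with h1 | ⟨z, b1, k', hk, hz, hb1, hm⟩
    · left
      rw [hb0]
      exact Mt.succ h h1
    · right
      refine ⟨z, b1 + (single u 1 + single v 1), k, rfl, hz, ?_, ?_⟩
      · rw [hb0, hb1]; abel
      · rw [hk]
        exact Mt.succ h hm

/-- if not all of `b` is covered then some vertex can be removed -/
theorem Mt.exposed {k : ℕ} {b : V →₀ ℕ} (h : Mt G k b) (hd : 2 * k < b.degree) :
    ∃ (y : V) (b0 : V →₀ ℕ), b = b0 + single y 1 ∧ Mt G k b0 := by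
  induction h with
  | zero b =>
    have : b ≠ 0 := by
      rintro rfl
      simp at hd
    obtain ⟨y, hy⟩ := Finsupp.ne_iff.1 this
    obtain ⟨b', hb'⟩ := exists_sub_single (b := b) (y := y) (by simpa using hy)
    exact ⟨y, b', hb', Mt.zero _⟩
  | @succ k b u v h hb ih =>
    rw [map_add, map_add, degree_single, degree_single] at hd
    obtain ⟨y, b0, rfl, h0⟩ := ih (by omega)
    exact ⟨y, b0 + (single u 1 + single v 1), by abel, Mt.succ h h0⟩

/-- submodularity of the matching number for two vertices of the same colour in a bipartite graph -/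
theorem Mt.submod {col : V → Bool} (hcol : ∀ u v, H.Adj u v → col u ≠ col v) : ∀ (p q : ℕ)
    (w : V →₀ ℕ) (y y' : V), col y = col y' → Mt H p (w + single y' 1 + single y 1) →
    Mt H q w → ∃ p' q', p' + q' = p + q ∧ Mt H p' (w + single y' 1) ∧ Mt H q' (w + single y 1) := by
  classical
  intro p
  induction p with
  | zero =>
    intro q w y y' _ _ hq
    exact ⟨0, q, rfl, Mt.zero _, hq.add_right _⟩
  | succ p ih =>
    intro q w y y' hc hp hq
    rcases hp.cases_at y _ rfl with h1 | ⟨z, b1, k', hk, hz, hb1, hm⟩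
    · exact ⟨p + 1, q, rfl, h1, hq.add_right _⟩
    · obtain rfl : p = k' := Nat.succ_injective hk
      have hzy : z ≠ y' := by
        rintro rfl
        exact hcol _ _ hz hc
      -- w contains z
      have hwz : w z ≠ 0 := by
        have := congrArg (fun f : V →₀ ℕ => f z) hb1
        simp only [Finsupp.add_apply, single_apply, if_neg (Ne.symm hzy), if_true, add_zero] at this
        omega
      obtain ⟨w1, rfl⟩ := exists_sub_single hwz
      have hb1' : b1 = w1 + single y' 1 := by
        have : b1 + single z 1 = w1 + single y' 1 + single z 1 := by rw [← hb1]; abel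
        exact add_right_cancel this
      rcases hq.cases_at z w1 rfl with h2 | ⟨y2, w2, q1, hq1, hz2, hw1, hm2⟩
      · refine ⟨p, q + 1, by omega, ?_, ?_⟩
        · refine hm.mono ?_
          rw [hb1']
          have : w1 + single z 1 + single y' 1 = w1 + single y' 1 + single z 1 := by abel
          rw [this]
          exact le_self_add
        · exact h2.add_edge hz.symm (by abel)
      · subst hq1
        have hc2 : col y2 = col y' := by
          have h3 := hcol _ _ hz2
          have h4 := hcol _ _ hz
          rw [← hc]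
          cases hy : col y <;> cases hzz : col z <;> cases hy2 : col y2 <;> simp_all
        obtain ⟨p', q', hpq, h5, h6⟩ := ih q1 w2 y2 y' hc2 (hm.congr (by
          rw [hb1', hw1]; abel)) hm2
        refine ⟨p' + 1, q' + 1, by omega, ?_, ?_⟩
        · exact h5.add_edge hz2 (by rw [hw1]; abel)
        · exact h6.add_edge hz (by rw [hw1]; abel)

/-- In a bipartite graph, some vertex can be added without increasing the matching number. -/
theorem exists_free {col : V → Bool} (hcol : ∀ u v, H.Adj u v → col u ≠ col v) (w : V →₀ ℕ)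
    (v0 : V) : ∃ u : V, (u = v0 ∨ w u ≠ 0) ∧ ∀ q, Mt H q (w + single u 1) → Mt H q w := by
  classical
  -- the matching number
  obtain ⟨q0, hq0, hmax⟩ : ∃ q0, Mt H q0 w ∧ ¬ Mt H (q0 + 1) w := by
    by_contra hcon
    push Not at hcon
    have : ∀ q, Mt H q w := by
      intro q
      induction q with
      | zero => exact Mt.zero _
      | succ q ih => exact hcon q ih
    have := (this (w.degree + 1)).degree
    omega
  by_cases hex : 2 * q0 < w.degree
  · obtain ⟨y, w0, rfl, h0⟩ := hq0.exposed hex
    refine ⟨y, Or.inr (by simp), fun q hq => ?_⟩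
    by_contra hcon
    have hlt : q0 < q := by
      by_contra hle
      exact hcon (hq0.of_le (not_lt.1 hle))
    obtain ⟨p', q', hpq, h1, h2⟩ := Mt.submod hcol (q0 + 1) q0 w0 y y rfl
      (hq.of_le (by omega)) h0
    rcases Nat.lt_or_ge q0 p' with h | h
    · exact hmax (h1.of_le h)
    · exact hmax (h2.of_le (by omega))
  · refine ⟨v0, Or.inl rfl, fun q hq => ?_⟩
    by_contra hcon
    have hlt : q0 < q := by
      by_contra hle
      exact hcon (hq0.of_le (not_lt.1 hle))
    have := (hq.of_le (show q0 + 1 ≤ q from hlt)).degree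
    rw [map_add, degree_single] at this
    omega

/-- the edges inside `C` -/
def inside (G : SimpleGraph V) (C : Finset V) : SimpleGraph V where
  Adj u v := G.Adj u v ∧ u ∈ C ∧ v ∈ C
  symm := ⟨fun _ _ h => ⟨h.1.symm, h.2.2, h.2.1⟩⟩
  loopless := ⟨fun _ h => h.1.ne rfl⟩

/-- splitting along a union `C` of components of `F` -/
theorem Mt.split [DecidableEq V] {F C : Finset V}
    (hC : ∀ u ∈ C, ∀ v ∈ F, G.Adj u v → v ∈ C) {k : ℕ} {b : V →₀ ℕ}
    (h : Mt G k b) (hF : ∀ v, b v ≠ 0 → v ∈ F) :
    ∃ k1 k2, k1 + k2 = k ∧ Mt (inside G C) k1 (b.filter (· ∈ C)) ∧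
      Mt G k2 (b.filter (fun v => ¬ v ∈ C)) := by
  induction h with
  | zero b => exact ⟨0, 0, rfl, Mt.zero _, Mt.zero _⟩
  | @succ k b u v h hb ih =>
    have hb' : ∀ x, b x ≠ 0 → x ∈ F := by
      intro x hx
      apply hF
      simp only [Finsupp.add_apply]
      omega
    have hu : u ∈ F := hF u (by simp)
    have hv : v ∈ F := hF v (by simp)
    obtain ⟨k1, k2, hk, h1, h2⟩ := ih hb'
    by_cases huC : u ∈ C
    · have hvC : v ∈ C := hC u huC v hv h
      refine ⟨k1 + 1, k2, by omega, ?_, ?_⟩
      · have e : (b + (single u 1 + single v 1)).filter (· ∈ C) =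
            b.filter (· ∈ C) + (single u 1 + single v 1) := by
          rw [filter_add, filter_add, filter_single_of_pos _ huC, filter_single_of_pos _ hvC]
        rw [e]
        exact Mt.succ (show (inside G C).Adj u v from ⟨h, huC, hvC⟩) h1
      · have e : (b + (single u 1 + single v 1)).filter (fun x => ¬ x ∈ C) =
            b.filter (fun x => ¬ x ∈ C) := by
          rw [filter_add, filter_add, filter_single_of_neg (p := fun x => ¬ x ∈ C) (not_not.2 huC),
            filter_single_of_neg (p := fun x => ¬ x ∈ C) (not_not.2 hvC), add_zero, add_zero]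
        rw [e]
        exact h2
    · have hvC : v ∉ C := fun hv' => huC (hC v hv' u hu h.symm)
      refine ⟨k1, k2 + 1, by omega, ?_, ?_⟩
      · have e : (b + (single u 1 + single v 1)).filter (· ∈ C) = b.filter (· ∈ C) := by
          rw [filter_add, filter_add, filter_single_of_neg _ huC, filter_single_of_neg _ hvC,
            add_zero, add_zero]
        rw [e]
        exact h1
      · have e : (b + (single u 1 + single v 1)).filter (fun x => ¬ x ∈ C) =
            b.filter (fun x => ¬ x ∈ C) + (single u 1 + single v 1) := by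
          rw [filter_add, filter_add, filter_single_of_pos (p := fun x => ¬ x ∈ C) huC,
            filter_single_of_pos (p := fun x => ¬ x ∈ C) hvC]
        rw [e]
        exact Mt.succ h h2

/-- adding the free vertex `u` of the component `C` does not change the matching number -/
theorem Mt.key [DecidableEq V] {F C : Finset V}
    (hC : ∀ u ∈ C, ∀ v ∈ F, G.Adj u v → v ∈ C) {b : V →₀ ℕ} {u : V} (hu : u ∈ C) (huF : u ∈ F)
    (hfree : ∀ q, Mt (inside G C) q (b.filter (· ∈ C) + single u 1) →
      Mt (inside G C) q (b.filter (· ∈ C))) (hF : ∀ v, b v ≠ 0 → v ∈ F) {k : ℕ}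
    (h : Mt G k (b + single u 1)) : Mt G k b := by
  obtain ⟨k1, k2, hk, h1, h2⟩ := h.split hC (by
    intro v hv
    by_cases hvu : v = u
    · rw [hvu]; exact huF
    · apply hF
      simpa [single_apply, Ne.symm hvu] using hv)
  have e1 : (b + single u 1).filter (· ∈ C) = b.filter (· ∈ C) + single u 1 := by
    rw [filter_add, filter_single_of_pos _ hu]
  have e2 : (b + single u 1).filter (fun x => ¬ x ∈ C) = b.filter (fun x => ¬ x ∈ C) := by
    rw [filter_add, filter_single_of_neg (p := fun x => ¬ x ∈ C) (not_not.2 hu), add_zero]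
  rw [e1] at h1
  rw [e2] at h2
  have h3 : Mt G k1 (b.filter (· ∈ C)) := (hfree _ h1).graph (fun _ _ h => And.left h)
  rw [← hk]
  exact (h3.add h2).congr (filter_add_filter_not b _)

end Pool.Agent.Lib.MP_a9db68_al
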