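import Pool.Agent.Lib.MP_a9db68_al.Conf

/-! Pieces: connected subsets with a suitable monomial. -/

set_option autoImplicit false

namespace Pool.Agent.Lib.MP_a9db68_al

open Finsupp

variable {n : ℕ} {G : SimpleGraph (Fin n)}

/-- a piece on which the degree drops by one -/
structure TP (G : SimpleGraph (Fin n)) (C : Finset (Fin n)) (κ : ℕ) (col : Fin n → Bool)
    (w : Fin n →₀ ℕ) : Prop where
  ne : C.Nonempty
  supp : ∀ v, w v ≠ 0 → v ∈ C
  deg : w.degree = 2 * κ
  mt : Mt G κ w
  cross : ∀ x ∈ C, ∀ y ∈ C, col x ≠ col y → Mt G (κ + 1) (w + (single x 1 + single y 1))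
  nbr : ∀ x ∈ C, ∃ y ∈ C, G.Adj x y ∧ col x ≠ col y

/-- a nonbipartite piece -/
structure NP (G : SimpleGraph (Fin n)) (C : Finset (Fin n)) (κ : ℕ) (w : Fin n →₀ ℕ) : Prop where
  supp : ∀ v, w v ≠ 0 → v ∈ C
  deg : w.degree = 2 * κ + 1
  mt : Mt G κ w
  cross : ∀ x ∈ C, Mt G (κ + 1) (w + single x 1)

theorem supp_edge {C : Finset (Fin n)} {w : Fin n →₀ ℕ} (hw : ∀ v, w v ≠ 0 → v ∈ C) {x y : Fin n}
    (hx : x ∈ C) (hy : y ∈ C) : ∀ v, (w + (single x 1 + single y 1) : Fin n →₀ ℕ) v ≠ 0 → v ∈ C := by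
  intro v hv
  by_contra hcon
  apply hv
  have h1 : w v = 0 := by
    by_contra h0
    exact hcon (hw v h0)
  have h2 : x ≠ v := by
    rintro rfl
    exact hcon hx
  have h3 : y ≠ v := by
    rintro rfl
    exact hcon hy
  rw [Finsupp.add_apply, Finsupp.add_apply, h1, single_eq_of_ne' h2, single_eq_of_ne' h3]
  rfl

theorem TP.pad {C : Finset (Fin n)} {κ : ℕ} {col : Fin n → Bool} {w : Fin n →₀ ℕ}
    (h : TP G C κ col w) : ∃ w', TP G C (κ + 1) col w' := by
  obtain ⟨x, hx⟩ := h.ne
  obtain ⟨y, hy, hxy, _⟩ := h.nbr x hx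
  refine ⟨w + (single x 1 + single y 1), h.ne, supp_edge h.supp hx hy, ?_, Mt.succ hxy h.mt, ?_,
    h.nbr⟩
  · rw [map_add, map_add, h.deg, degree_single, degree_single]
    omega
  · intro u hu v hv huv
    exact (h.cross u hu v hv huv).add_edge hxy (by abel)

theorem TP.pad' {C : Finset (Fin n)} {κ κ' : ℕ} {col : Fin n → Bool} {w : Fin n →₀ ℕ}
    (h : TP G C κ col w) (hκ : κ ≤ κ') : ∃ w', TP G C κ' col w' := by
  induction hκ with
  | refl => exact ⟨w, h⟩
  | step _ ih =>
    obtain ⟨w', h'⟩ := ih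
    exact h'.pad

/-- growing a piece -/
theorem TP.grow {C : Finset (Fin n)} {κ : ℕ} {col : Fin n → Bool} {w : Fin n →₀ ℕ}
    (h : TP G C κ col w) {c u : Fin n} (hc : c ∈ C) (hu : u ∉ C) (hcu : G.Adj c u) :
    ∃ col' w', TP G (insert u C) (κ + 1) col' w' := by
  obtain ⟨y, hy, hcy, hcol⟩ := h.nbr c hc
  have hup : ∀ v ∈ C, Function.update col u (col y) v = col v := by
    intro v hv
    refine Function.update_of_ne ?_ _ _
    rintro rfl
    exact hu hv
  have hself : Function.update col u (col y) u = col y := Function.update_self _ _ _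
  -- the new cross pairs
  have hnew : ∀ v ∈ C, col y ≠ col v →
      Mt G (κ + 1 + 1) (w + (single c 1 + single y 1) + (single u 1 + single v 1)) := by
    intro v hv hyv
    exact (h.cross y hy v hv hyv).add_edge hcu (by abel)
  refine ⟨Function.update col u (col y), w + (single c 1 + single y 1),
    Finset.insert_nonempty _ _, ?_, ?_, Mt.succ hcy h.mt, ?_, ?_⟩
  · intro v hv
    exact Finset.mem_insert_of_mem (supp_edge h.supp hc hy v hv)
  · rw [map_add, map_add, h.deg, degree_single, degree_single]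
    omega
  · intro x hx z hz hxz
    rcases Finset.mem_insert.1 hx with hxu | hx'
    · rcases Finset.mem_insert.1 hz with hzu | hz'
      · exact absurd (by rw [hxu, hzu]) hxz
      · rw [hxu, hself, hup z hz'] at hxz
        rw [hxu]
        exact hnew z hz' hxz
    · rcases Finset.mem_insert.1 hz with hzu | hz'
      · rw [hzu, hself, hup x hx'] at hxz
        rw [hzu]
        exact (hnew x hx' (Ne.symm hxz)).congr (by abel)
      · rw [hup x hx', hup z hz'] at hxz
        exact (h.cross x hx' z hz' hxz).add_edge hcy (by abel)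
  · intro x hx
    rcases Finset.mem_insert.1 hx with rfl | hx
    · refine ⟨c, Finset.mem_insert_of_mem hc, hcu.symm, ?_⟩
      rw [hself, hup c hc]
      exact Ne.symm hcol
    · obtain ⟨z, hz, hxz, hne⟩ := h.nbr x hx
      refine ⟨z, Finset.mem_insert_of_mem hz, hxz, ?_⟩
      rw [hup x hx, hup z hz]
      exact hne

/-- a star -/
theorem TP.star {C : Finset (Fin n)} {c : Fin n} (hc : c ∈ C) (hC : ∀ v ∈ C, v ≠ c → G.Adj c v)
    (hne : ∃ v ∈ C, v ≠ c) : TP G C 0 (fun v => decide (v = c)) 0 := by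
  have key : ∀ x ∈ C, ∀ y ∈ C, decide (x = c) ≠ decide (y = c) → G.Adj x y := by
    intro x hx y hy hxy
    by_cases hxc : x = c
    · have hyc : y ≠ c := by
        rintro rfl
        exact hxy (by rw [hxc])
      rw [hxc]
      exact hC y hy hyc
    · have hyc : y = c := by
        by_contra hyc
        exact hxy (by rw [decide_eq_false hxc, decide_eq_false hyc])
      rw [hyc]
      exact (hC x hx hxc).symm
  refine ⟨⟨c, hc⟩, fun v hv => absurd rfl hv, by simp, Mt.zero _, ?_, ?_⟩
  · intro x hx y hy hxy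
    exact (Mt.edge (key x hx y hy hxy)).congr (zero_add _).symm
  · intro x hx
    by_cases hxc : x = c
    · obtain ⟨v, hv, hvc⟩ := hne
      refine ⟨v, hv, ?_, ?_⟩
      · rw [hxc]; exact hC v hv hvc
      · simp [hxc, hvc]
    · refine ⟨c, hc, (hC x hx hxc).symm, ?_⟩
      simp [hxc]

/-- connected sets, built vertex by vertex -/
inductive Cn (G : SimpleGraph (Fin n)) : Finset (Fin n) → Prop
  | one (v : Fin n) : Cn G {v}
  | ins {C : Finset (Fin n)} {c u : Fin n} (h : Cn G C) (hc : c ∈ C) (hu : u ∉ C)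
      (hcu : G.Adj c u) : Cn G (insert u C)

theorem Cn.tp {C : Finset (Fin n)} (h : Cn G C) (h2 : 2 ≤ C.card) :
    ∃ col w, TP G C (C.card - 3) col w := by
  induction h with
  | one v => simp at h2
  | @ins C c u h hc hu hcu ih =>
    rw [Finset.card_insert_of_notMem hu] at h2 ⊢
    rcases Nat.lt_or_ge C.card 2 with h3 | h3
    · have h4 : C = {c} := by
        obtain ⟨x, hx⟩ := Finset.card_eq_one.1 (show C.card = 1 by omega)
        rw [hx] at hc ⊢
        rw [Finset.mem_singleton.1 hc]
      have h5 : C.card + 1 - 3 = 0 := by omega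
      rw [h5]
      refine ⟨_, _, TP.star (c := c) (Finset.mem_insert_of_mem hc) ?_
        ⟨u, Finset.mem_insert_self _ _, fun h => hu (h ▸ hc)⟩⟩
      intro v hv hvc
      rcases Finset.mem_insert.1 hv with rfl | hv
      · exact hcu
      · rw [h4, Finset.mem_singleton] at hv
        exact absurd hv hvc
    · obtain ⟨col, w, hT⟩ := ih h3
      rcases Nat.lt_or_ge C.card 3 with h4 | h4
      · have h5 : C.card + 1 - 3 = 0 := by omega
        rw [h5]
        obtain ⟨y, hy, hcy, _⟩ := hT.nbr c hc
        have h6 : C = {c, y} := by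
          symm
          apply Finset.eq_of_subset_of_card_le
          · intro v hv
            rcases Finset.mem_insert.1 hv with rfl | hv
            · exact hc
            · rw [Finset.mem_singleton.1 hv]; exact hy
          · rw [Finset.card_pair hcy.ne]
            omega
        refine ⟨_, _, TP.star (c := c) (Finset.mem_insert_of_mem hc) ?_
          ⟨u, Finset.mem_insert_self _ _, fun h => hu (h ▸ hc)⟩⟩
        intro v hv hvc
        rcases Finset.mem_insert.1 hv with rfl | hv
        · exact hcu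
        · rw [h6, Finset.mem_insert, Finset.mem_singleton] at hv
          rcases hv with rfl | rfl
          · exact absurd rfl hvc
          · exact hcy
      · obtain ⟨col', w', hT'⟩ := hT.grow hc hu hcu
        have h5 : C.card - 3 + 1 = C.card + 1 - 3 := by omega
        rw [h5] at hT'
        exact ⟨col', w', hT'⟩

theorem Cn.nonempty {C : Finset (Fin n)} (h : Cn G C) : C.Nonempty := by
  cases h with
  | one v => exact Finset.singleton_nonempty v
  | ins _ _ _ _ => exact Finset.insert_nonempty _ _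

theorem Cn.sub {C : Finset (Fin n)} (h : Cn G C) {m : ℕ} (hm : 1 ≤ m) (hmC : m ≤ C.card) :
    ∃ D, D ⊆ C ∧ Cn G D ∧ D.card = m := by
  induction h with
  | one v =>
    refine ⟨{v}, subset_rfl, Cn.one v, ?_⟩
    rw [Finset.card_singleton] at hmC ⊢
    omega
  | @ins C c u h hc hu hcu ih =>
    rcases Nat.lt_or_ge C.card m with h1 | h1
    · refine ⟨insert u C, subset_rfl, Cn.ins h hc hu hcu, ?_⟩
      rw [Finset.card_insert_of_notMem hu] at hmC ⊢
      omega
    · obtain ⟨D, hD, hD2, hD3⟩ := ih h1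
      exact ⟨D, hD.trans (Finset.subset_insert _ _), hD2, hD3⟩

/-- nonbipartite pieces -/
theorem Cn.np {C : Finset (Fin n)} (h : Cn G C)
    (hodd : ∀ col : Fin n → Bool, ∃ x ∈ C, ∃ y ∈ C, G.Adj x y ∧ col x = col y) {κ : ℕ}
    (hκ : C.card - 2 ≤ κ) : ∃ w, NP G C κ w := by
  have h2 : 2 ≤ C.card := by
    obtain ⟨x, hx, y, hy, hxy, _⟩ := hodd fun _ => true
    have : ({x, y} : Finset (Fin n)).card ≤ C.card := by
      apply Finset.card_le_card
      intro v hv
      rcases Finset.mem_insert.1 hv with rfl | hv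
      · exact hx
      · rw [Finset.mem_singleton.1 hv]; exact hy
    rwa [Finset.card_pair hxy.ne] at this
  obtain ⟨col, w0, hT0⟩ := h.tp h2
  obtain ⟨x, hx, x', hx', hxx, hcol⟩ := hodd col
  obtain ⟨b, hb, hxb, hcolb⟩ := hT0.nbr x' hx'
  have h3 : 3 ≤ C.card := by
    have h4 : ({x, x', b} : Finset (Fin n)).card ≤ C.card := by
      apply Finset.card_le_card
      intro v hv
      simp only [Finset.mem_insert, Finset.mem_singleton] at hv
      rcases hv with rfl | rfl | rfl
      · exact hx
      · exact hx'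
      · exact hb
    have h5 : x ≠ b := by
      rintro rfl
      exact hcolb hcol.symm
    rwa [Finset.card_eq_three.2 ⟨x, x', b, hxx.ne, h5, hxb.ne, rfl⟩] at h4
  obtain ⟨κ', rfl⟩ : ∃ κ', κ = κ' + 1 := ⟨κ - 1, by omega⟩
  obtain ⟨w, hT⟩ := hT0.pad' (show C.card - 3 ≤ κ' by omega)
  refine ⟨w + (single x 1 + single x' 1) + single b 1, ?_, ?_, ?_, ?_⟩
  · intro v hv
    by_contra hcon
    apply hv
    have h4 : (w + (single x 1 + single x' 1) : Fin n →₀ ℕ) v = 0 := by
      by_contra h0
      exact hcon (supp_edge hT.supp hx hx' v h0)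
    have h5 : b ≠ v := by
      rintro rfl
      exact hcon hb
    rw [Finsupp.add_apply, h4, single_eq_of_ne' h5]
    rfl
  · rw [map_add, map_add, map_add, hT.deg, degree_single, degree_single, degree_single]
    omega
  · exact (Mt.succ hxx hT.mt).add_right _
  · intro v hv
    by_cases hvb : col v = col b
    · have h4 : col x ≠ col v := by
        rw [hvb, hcol]
        exact hcolb
      exact (hT.cross x hx v hv h4).add_edge hxb (by abel)
    · exact (hT.cross b hb v hv (Ne.symm hvb)).add_edge hxx (by abel)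

theorem filter_left {C : Finset (Fin n)} {p q : Fin n →₀ ℕ} (hp : ∀ v, p v ≠ 0 → v ∈ C)
    (hq : ∀ v, q v ≠ 0 → v ∉ C) : (p + q).filter (· ∈ C) = p := by
  ext v
  by_cases hv : v ∈ C
  · rw [Finsupp.filter_apply_pos _ _ hv, Finsupp.add_apply]
    have : q v = 0 := by
      by_contra h0
      exact hq v h0 hv
    rw [this, add_zero]
  · rw [Finsupp.filter_apply_neg _ _ hv]
    by_contra h0
    exact hv (hp v (Ne.symm h0))

theorem filter_right {C : Finset (Fin n)} {p q : Fin n →₀ ℕ} (hp : ∀ v, p v ≠ 0 → v ∈ C)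
    (hq : ∀ v, q v ≠ 0 → v ∉ C) : (p + q).filter (fun v => ¬ v ∈ C) = q := by
  ext v
  by_cases hv : v ∈ C
  · rw [Finsupp.filter_apply_neg (fun v => ¬ v ∈ C) _ (not_not.2 hv)]
    by_contra h0
    exact hq v (Ne.symm h0) hv
  · rw [Finsupp.filter_apply_pos (fun v => ¬ v ∈ C) _ hv, Finsupp.add_apply]
    have : p v = 0 := by
      by_contra h0
      exact hv (hp v h0)
    rw [this, zero_add]

theorem supp_add {C : Finset (Fin n)} {p q : Fin n →₀ ℕ} (hp : ∀ v, p v ≠ 0 → v ∈ C)
    (hq : ∀ v, q v ≠ 0 → v ∈ C) : ∀ v, (p + q) v ≠ 0 → v ∈ C := by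
  intro v hv
  by_contra hcon
  apply hv
  have h1 : p v = 0 := by
    by_contra h0
    exact hcon (hp v h0)
  have h2 : q v = 0 := by
    by_contra h0
    exact hcon (hq v h0)
  rw [Finsupp.add_apply, h1, h2]

theorem supp_single {C : Finset (Fin n)} {x : Fin n} (hx : x ∈ C) :
    ∀ v, (single x 1 : Fin n →₀ ℕ) v ≠ 0 → v ∈ C := by
  intro v hv
  by_contra hcon
  apply hv
  apply single_eq_of_ne'
  rintro rfl
  exact hcon hx

theorem supp_ls {C : Finset (Fin n)} {ds : List (Fin n)} (h : ∀ d ∈ ds, d ∈ C) :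
    ∀ v, ls ds v ≠ 0 → v ∈ C := by
  induction ds with
  | nil => intro v hv; exact absurd rfl hv
  | cons d ds ih =>
    rw [ls_cons]
    exact supp_add (supp_single (h d List.mem_cons_self))
      (ih fun e he => h e (List.mem_cons_of_mem d he))

theorem supp_forall2 {F : Finset (Fin n)} {ds : List (Fin n)} {L : List (Pc n)}
    (h : List.Forall₂ (fun d (p : Pc n) => d = p.2.1 ∨ d = p.2.2) ds L)
    (hL : ∀ p ∈ L, p.2.1 ∈ F ∧ p.2.2 ∈ F) : ∀ d ∈ ds, d ∈ F := by
  induction h with
  | nil => intro d hd; exact absurd hd (List.not_mem_nil)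
  | @cons e p ds L h _ ih =>
    intro d hd
    rcases List.mem_cons.1 hd with rfl | hd
    · rcases h with rfl | rfl
      · exact (hL p List.mem_cons_self).1
      · exact (hL p List.mem_cons_self).2
    · exact ih (fun q hq => hL q (List.mem_cons_of_mem p hq)) d hd

/-- the count for a union of two separated sets -/
theorem count_union {F C : Finset (Fin n)} (hd : Disjoint C F)
    (hsep : ∀ x ∈ C, ∀ y ∈ F, ¬ G.Adj x y) {p q : Fin n →₀ ℕ} (hp : ∀ v, p v ≠ 0 → v ∈ C)
    (hq : ∀ v, q v ≠ 0 → v ∈ F) {κ κ' : ℕ} (hdeg : p.degree ≤ 2 * κ' + 1)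
    (hcount : ¬ Mt G (κ + 1) q) : ¬ Mt G (κ' + κ + 1) (p + q) := by
  intro h
  have hq' : ∀ v, q v ≠ 0 → v ∉ C := fun v hv hvC => Finset.disjoint_left.1 hd hvC (hq v hv)
  obtain ⟨k1, k2, hk, h1, h2⟩ := h.split (F := C ∪ F) (C := C) (by
    intro x hx y hy hxy
    rcases Finset.mem_union.1 hy with hy | hy
    · exact hy
    · exact absurd hxy (hsep x hx y hy)) (supp_add
        (fun v hv => Finset.mem_union_left _ (hp v hv))
        (fun v hv => Finset.mem_union_right _ (hq v hv)))
  rw [filter_left hp hq'] at h1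
  rw [filter_right hp hq'] at h2
  have h3 := h1.degree
  exact hcount (h2.of_le (by omega))

theorem Conf.nil : Conf G ∅ [] 0 0 where
  wsupp := fun v hv => absurd rfl hv
  hB := fun p hp => absurd hp (List.not_mem_nil)
  pair := List.Pairwise.nil
  mt := Mt.zero _
  cross := fun bs _ v hv => absurd hv (Finset.notMem_empty v)
  count := by
    intro ds hds h
    cases hds
    rw [ls_nil, add_zero] at h
    have := h.degree
    simp at this

theorem Conf.addN {F C : Finset (Fin n)} {L : List (Pc n)} {w w' : Fin n →₀ ℕ} {κ κ' : ℕ}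
    (h : Conf G F L w κ) (hN : NP G C κ' w') (hd : Disjoint C F)
    (hsep : ∀ x ∈ C, ∀ y ∈ F, ¬ G.Adj x y) : Conf G (C ∪ F) L (w' + w) (κ' + κ) where
  wsupp := supp_add (fun v hv => Finset.mem_union_left _ (hN.supp v hv))
    (fun v hv => Finset.mem_union_right _ (h.wsupp v hv))
  hB := by
    intro p hp
    obtain ⟨h1, h2, h3, h4, h5⟩ := h.hB p hp
    exact ⟨h1.trans Finset.subset_union_right, Finset.mem_union_right _ h2,
      Finset.mem_union_right _ h3, h4, h5⟩
  pair := h.pair
  mt := hN.mt.add h.mt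
  cross := by
    intro bs hbs v hv hvL
    rcases Finset.mem_union.1 hv with hv | hv
    · exact ((hN.cross v hv).add (h.mt.add_right (ls bs))).congr (by abel) |>.of_le (by omega)
    · exact (hN.mt.add (h.cross bs hbs v hv hvL)).congr (by abel) |>.of_le (by omega)
  count := by
    intro ds hds
    have e1 : w' + w + ls ds = w' + (w + ls ds) := add_assoc _ _ _
    rw [e1]
    refine count_union hd hsep hN.supp (supp_add h.wsupp (supp_ls ?_)) hN.deg.le (h.count ds hds)
    exact supp_forall2 hds fun p hp => ⟨(h.hB p hp).2.1, (h.hB p hp).2.2.1⟩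

theorem Conf.addT {F C : Finset (Fin n)} {L : List (Pc n)} {w w' : Fin n →₀ ℕ} {κ κ' : ℕ}
    {col : Fin n → Bool} (h : Conf G F L w κ) (hT : TP G C κ' col w') (hd : Disjoint C F)
    (hsep : ∀ x ∈ C, ∀ y ∈ F, ¬ G.Adj x y) :
    ∃ p : Pc n, Conf G (C ∪ F) (p :: L) (w' + w) (κ' + κ) := by
  classical
  obtain ⟨a, b, ha, hb, hca, hcb⟩ : ∃ a b, a ∈ C ∧ b ∈ C ∧ col a = false ∧ col b = true := by
    obtain ⟨x, hx⟩ := hT.ne
    obtain ⟨y, hy, _, hxy⟩ := hT.nbr x hx
    cases hcx : col x with
    | false =>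
      cases hcy : col y with
      | false => exact absurd (hcx.trans hcy.symm) hxy
      | true => exact ⟨x, y, hx, hy, hcx, hcy⟩
    | true =>
      cases hcy : col y with
      | false => exact ⟨y, x, hy, hx, hcy, hcx⟩
      | true => exact absurd (hcx.trans hcy.symm) hxy
  have hBC : C.filter (fun v => col v = true) ⊆ C := Finset.filter_subset _ _
  refine ⟨(C.filter (fun v => col v = true), a, b), ?_, ?_, ?_, hT.mt.add h.mt, ?_, ?_⟩
  · exact supp_add (fun v hv => Finset.mem_union_left _ (hT.supp v hv))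
      (fun v hv => Finset.mem_union_right _ (h.wsupp v hv))
  · intro p hp
    rcases List.mem_cons.1 hp with rfl | hp
    · refine ⟨hBC.trans Finset.subset_union_left, Finset.mem_union_left _ ha,
        Finset.mem_union_left _ hb, ?_, Finset.mem_filter.2 ⟨hb, hcb⟩⟩
      intro hcon
      have h1 := (Finset.mem_filter.1 hcon).2
      rw [hca] at h1
      exact Bool.noConfusion h1
    · obtain ⟨h1, h2, h3, h4, h5⟩ := h.hB p hp
      exact ⟨h1.trans Finset.subset_union_right, Finset.mem_union_right _ h2,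
        Finset.mem_union_right _ h3, h4, h5⟩
  · rw [List.pairwise_cons]
    refine ⟨?_, h.pair⟩
    intro q hq
    obtain ⟨h1, h2, h3, _⟩ := h.hB q hq
    refine ⟨?_, ?_, ?_⟩
    · exact (hd.mono_left hBC).mono_right h1
    · exact fun hcon => Finset.disjoint_left.1 hd (hBC hcon) h2
    · exact fun hcon => Finset.disjoint_left.1 hd (hBC hcon) h3
  · intro bs hbs v hv hvL
    cases hbs with
    | @cons b' _ bs' _ hb' hbs' =>
      rw [ls_cons]
      have hb'C := Finset.mem_filter.1 hb'
      rcases Finset.mem_union.1 hv with hv | hv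
      · have hcv : col v = false := by
          have h1 := hvL _ List.mem_cons_self
          cases hcv : col v with
          | false => rfl
          | true => exact absurd (Finset.mem_filter.2 ⟨hv, hcv⟩) h1
        have h2 : Mt G (κ' + 1) (w' + (single b' 1 + single v 1)) :=
          hT.cross b' hb'C.1 v hv (by rw [hb'C.2, hcv]; exact Bool.noConfusion)
        exact (h2.add (h.mt.add_right (ls bs'))).congr (by abel) |>.of_le (by omega)
      · have h2 := h.cross bs' hbs' v hv fun p hp => hvL p (List.mem_cons_of_mem _ hp)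
        exact ((hT.mt.add_right (single b' 1)).add h2).congr (by abel) |>.of_le (by omega)
  · intro ds hds
    cases hds with
    | @cons d _ ds' _ hd' hds' =>
      rw [ls_cons]
      have hdC : d ∈ C := by
        rcases hd' with rfl | rfl
        · exact ha
        · exact hb
      have e1 : w' + w + (single d 1 + ls ds') = (w' + single d 1) + (w + ls ds') := by abel
      rw [e1]
      refine count_union hd hsep (supp_add hT.supp (supp_single hdC))
        (supp_add h.wsupp (supp_ls ?_)) ?_ (h.count ds' hds')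
      · exact supp_forall2 hds' fun p hp => ⟨(h.hB p hp).2.1, (h.hB p hp).2.2.1⟩
      · rw [map_add, hT.deg, degree_single]

end Pool.Agent.Lib.MP_a9db68_al
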