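import Pool.Agent.Lib.MP_a9db68_al.Piece

/-! Selection of the pieces in the components. -/

set_option autoImplicit false

namespace Pool.Agent.Lib.MP_a9db68_al

variable {n : ℕ} {G : SimpleGraph (Fin n)}

theorem Cn.connected {C : Finset (Fin n)} (h : Cn G C) :
    (G.induce (C : Set (Fin n))).Connected := by
  induction h with
  | one v =>
    have hne : Nonempty (({v} : Finset (Fin n)) : Set (Fin n)) :=
      ⟨⟨v, Finset.mem_coe.2 (Finset.mem_singleton_self v)⟩⟩
    refine ⟨fun x y => ?_⟩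
    have hxy : x = y := by
      apply Subtype.ext
      have h1 := Finset.mem_singleton.1 (Finset.mem_coe.1 x.2)
      have h2 := Finset.mem_singleton.1 (Finset.mem_coe.1 y.2)
      rw [h1, h2]
    rw [hxy]
  | @ins C c u h hc hu hcu ih =>
    have h1 := SimpleGraph.induce_union_connected ih.preconnected
      (SimpleGraph.induce_pair_connected_of_adj hcu).preconnected
      ⟨c, Finset.mem_coe.2 hc, Set.mem_insert _ _⟩
    have h2 : ((insert u C : Finset (Fin n)) : Set (Fin n)) = (C : Set (Fin n)) ∪ {c, u} := by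
      ext x
      simp only [Finset.coe_insert, Set.mem_insert_iff, Finset.mem_coe, Set.mem_union,
        Set.mem_singleton_iff]
      constructor
      · rintro (rfl | h)
        · exact Or.inr (Or.inr rfl)
        · exact Or.inl h
      · rintro (h | rfl | rfl)
        · exact Or.inr h
        · exact Or.inr hc
        · exact Or.inl rfl
    rw [h2]
    exact h1

theorem exists_comp {F : Finset (Fin n)} {v0 : Fin n} (h : v0 ∈ F) :
    ∃ C, IsComp G F C ∧ Cn G C := by
  classical
  have hne : (F.powerset.filter fun C => Cn G C).Nonempty := by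
    refine ⟨{v0}, ?_⟩
    rw [Finset.mem_filter, Finset.mem_powerset]
    exact ⟨Finset.singleton_subset_iff.2 h, Cn.one v0⟩
  obtain ⟨C, hC, hmax⟩ := Finset.exists_max_image _ Finset.card hne
  rw [Finset.mem_filter, Finset.mem_powerset] at hC
  refine ⟨C, ⟨hC.1, hC.2.connected, ?_⟩, hC.2⟩
  intro u hu v hv huv
  by_contra hvC
  have h1 := hmax (insert v C) (by
    rw [Finset.mem_filter, Finset.mem_powerset]
    exact ⟨Finset.insert_subset hv hC.1, Cn.ins hC.2 hu hvC huv⟩)
  rw [Finset.card_insert_of_notMem hvC] at h1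
  omega

theorem bip_le_card (G : SimpleGraph (Fin n)) (F : Finset (Fin n)) :
    bipComps G F ≤ F.card := by
  classical
  have hcardJ : Fintype.card {C : Finset (Fin n) // IsComp G F C ∧
      (G.induce (C : Set (Fin n))).Colorable 2} = bipComps G F := by
    unfold bipComps
    rw [← Nat.card_coe_set_eq, Nat.card_eq_fintype_card]
    rfl
  have hex := fun j : {C : Finset (Fin n) // IsComp G F C ∧
      (G.induce (C : Set (Fin n))).Colorable 2} => j.2.1.nonempty
  choose f hf using hex
  have hinj : Function.Injective f := by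
    intro j l hjl
    have h1 := hf j
    rw [hjl] at h1
    exact Subtype.ext (IsComp.eq_of_mem j.2.1 l.2.1 h1 (hf l))
  rw [← hcardJ, ← Finset.card_univ, ← Finset.card_image_of_injective _ hinj]
  refine Finset.card_le_card fun v hv => ?_
  obtain ⟨j, _, rfl⟩ := Finset.mem_image.1 hv
  exact j.2.1.1 (hf j)

theorem IsComp.of_sdiff {F C D : Finset (Fin n)} (hC : IsComp G F C) (hD : IsComp G (F \ C) D) :
    IsComp G F D := by
  refine ⟨hD.1.trans Finset.sdiff_subset, hD.2.1, ?_⟩
  intro u hu v hv huv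
  by_cases hvC : v ∈ C
  · have h1 := Finset.mem_sdiff.1 (hD.1 hu)
    exact absurd (hC.2.2 v hvC u h1.1 huv.symm) h1.2
  · exact hD.2.2 u hu v (Finset.mem_sdiff.2 ⟨hv, hvC⟩) huv

theorem bip_split_pos {F C : Finset (Fin n)} (hC : IsComp G F C)
    (hb : (G.induce (C : Set (Fin n))).Colorable 2) :
    bipComps G (F \ C) + 1 ≤ bipComps G F := by
  unfold bipComps
  have h1 : C ∉ {D : Finset (Fin n) | IsComp G (F \ C) D ∧
      (G.induce (D : Set (Fin n))).Colorable 2} := by
    rintro ⟨h, _⟩
    obtain ⟨x, hx⟩ := hC.nonempty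
    exact (Finset.mem_sdiff.1 (h.1 hx)).2 hx
  rw [← Set.ncard_insert_of_notMem h1 (Set.toFinite _)]
  refine Set.ncard_le_ncard ?_ (Set.toFinite _)
  rintro D (rfl | ⟨h2, h3⟩)
  · exact ⟨hC, hb⟩
  · exact ⟨hC.of_sdiff h2, h3⟩

theorem bip_split {F C : Finset (Fin n)} (hC : IsComp G F C) :
    bipComps G (F \ C) ≤ bipComps G F := by
  unfold bipComps
  refine Set.ncard_le_ncard ?_ (Set.toFinite _)
  rintro D ⟨h2, h3⟩
  exact ⟨hC.of_sdiff h2, h3⟩

theorem sel (G : SimpleGraph (Fin n)) (F : Finset (Fin n)) : ∀ s κ : ℕ,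
    s + bipComps G F ≤ F.card → s - 2 ≤ κ → (s = 0 → κ = 0) →
    ∃ (F' : Finset (Fin n)) (L : List (Pc n)) (w : Fin n →₀ ℕ), F' ⊆ F ∧ Conf G F' L w κ ∧
      F'.card = L.length + s := by
  classical
  induction F using Finset.strongInduction with
  | H F ih =>
    intro s κ hs hκ h0
    by_cases hs0 : s = 0
    · rw [h0 hs0, hs0]
      exact ⟨∅, [], 0, Finset.empty_subset _, Conf.nil, rfl⟩
    rcases F.eq_empty_or_nonempty with rfl | ⟨v0, hv0⟩
    · rw [Finset.card_empty] at hs
      omega
    obtain ⟨C, hC, hcn⟩ := exists_comp (G := G) hv0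
    have hlt : F \ C ⊂ F := Finset.sdiff_ssubset hC.1 hcn.nonempty
    have hle := bip_le_card G (F \ C)
    have hcard : (F \ C).card + C.card = F.card := Finset.card_sdiff_add_card_eq_card hC.1
    have hC1 : 1 ≤ C.card := Finset.card_pos.2 hcn.nonempty
    obtain ⟨s1, s2, hs12, hs1, hs2⟩ : ∃ s1 s2, s1 + s2 = s ∧
        s1 + bipComps G (F \ C) ≤ (F \ C).card ∧
        (s2 + 1 ≤ C.card ∨ (s2 = C.card ∧ ¬ (G.induce (C : Set (Fin n))).Colorable 2)) := by
      rcases Nat.lt_or_ge ((F \ C).card - bipComps G (F \ C)) s with h1 | h1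
      · refine ⟨(F \ C).card - bipComps G (F \ C), s - ((F \ C).card - bipComps G (F \ C)),
          by omega, by omega, ?_⟩
        by_cases hb : (G.induce (C : Set (Fin n))).Colorable 2
        · have h2 := bip_split_pos hC hb
          left
          omega
        · have h2 := bip_split hC
          rcases Nat.lt_or_ge (s - ((F \ C).card - bipComps G (F \ C))) C.card with h3 | h3
          · left
            omega
          · right
            exact ⟨by omega, hb⟩
      · exact ⟨s, 0, by omega, by omega, Or.inl (by omega)⟩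
    have hsep : ∀ F1, F1 ⊆ F \ C → ∀ D, D ⊆ C → Disjoint D F1 ∧
        ∀ x ∈ D, ∀ y ∈ F1, ¬ G.Adj x y := by
      intro F1 hF1 D hD
      refine ⟨?_, ?_⟩
      · rw [Finset.disjoint_left]
        intro x hx hx1
        exact (Finset.mem_sdiff.1 (hF1 hx1)).2 (hD hx)
      · intro x hx y hy hxy
        have h1 := Finset.mem_sdiff.1 (hF1 hy)
        exact h1.2 (hC.2.2 x (hD hx) y h1.1 hxy)
    by_cases h2 : s2 = 0
    · obtain ⟨F', L, w, h3, h4, h5⟩ := ih (F \ C) hlt s κ (by omega) hκ h0
      exact ⟨F', L, w, h3.trans Finset.sdiff_subset, h4, h5⟩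
    obtain ⟨F1, L1, w1, hF1, hc1, hcard1⟩ := ih (F \ C) hlt s1 (s1 - 2) hs1 le_rfl (by omega)
    have hκ2 : s2 - 2 ≤ κ - (s1 - 2) := by omega
    have hκ3 : κ - (s1 - 2) + (s1 - 2) = κ := by omega
    rcases hs2 with h3 | ⟨h3, hnb⟩
    · obtain ⟨D, hDC, hDcn, hDcard⟩ := hcn.sub (m := s2 + 1) (by omega) h3
      obtain ⟨col, w, hT⟩ := hDcn.tp (by omega)
      obtain ⟨w', hT'⟩ := hT.pad' (κ' := κ - (s1 - 2)) (by omega)
      obtain ⟨hd, hse⟩ := hsep F1 hF1 D hDC
      obtain ⟨p, hp⟩ := hc1.addT hT' hd hse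
      rw [hκ3] at hp
      refine ⟨D ∪ F1, p :: L1, w' + w1, ?_, hp, ?_⟩
      · exact Finset.union_subset (hDC.trans hC.1) (hF1.trans Finset.sdiff_subset)
      · rw [Finset.card_union_of_disjoint hd, List.length_cons]
        omega
    · obtain ⟨w', hN⟩ := hcn.np (κ := κ - (s1 - 2)) (exists_mono_edge hnb) (by omega)
      obtain ⟨hd, hse⟩ := hsep F1 hF1 C subset_rfl
      have hp := hc1.addN hN hd hse
      rw [hκ3] at hp
      refine ⟨C ∪ F1, L1, w' + w1, ?_, hp, ?_⟩
      · exact Finset.union_subset hC.1 (hF1.trans Finset.sdiff_subset)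
      · rw [Finset.card_union_of_disjoint hd]
        omega

end Pool.Agent.Lib.MP_a9db68_al
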